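import Pool.Agent.T9h57.LM.Prm2
import Pool.Agent.R460.GH.Bil

/-!
# Bilinear sums on the major arcs, for characters with small sums over short classes

Adapted from `R460/GH/Bil`.
-/

set_option autoImplicit false

namespace Pool.Agent.T9h57.LN

open Finset
open Pool.Agent.H807R2.Dav (ee)
open Pool.Agent.Y883.GJ
open Pool.Agent.R460.GS (one_class2)
open Pool.Agent.Y183.GJ (ci gi Yi Xi gi_pos gi_succ gi_le lt_gi ai wn w_sum w_le decomp norm_ev sq_sum_norm)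
theorem bilH (A C : ℕ) : ∃ K₂ K N₀ : ℕ, ∀ N : ℕ, N₀ ≤ N →
    ∀ (q : ℕ) [NeZero q], ∀ Z : ℕ, 1 ≤ Z → Z * Z ≤ N → q * Z ≤ N → ∀ a : ℕ → ℂ, (∀ m, ‖a m‖ ≤ 1) →
    (∀ m, a m ≠ 0 → m ≤ Z) → ∀ b : ℕ → ℂ, (∀ m ∈ Icc 1 N, ‖b m‖ ≤ Real.log N * (m.divisors.card : ℝ)) →
    ∀ η : ℝ, |η| ≤ Real.log N ^ C / N →
    ∀ S : Finset (DirichletCharacter ℂ q), (∀ χ ∈ S, ∀ i : ℕ, ‖∑ m ∈ Icc 1 (Xi ((Real.log N ^ (2 * K₂))⁻¹) i),
      ai ((Real.log N ^ (2 * K₂))⁻¹) a i m * χ (m : ZMod q)‖ ≤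
        gi ((Real.log N ^ (2 * K₂))⁻¹) i * (Real.log N ^ K)⁻¹) →
    ‖∑ m ∈ Icc 1 N, ∑ k ∈ Icc 1 (N / m), (a m * b k) • ev S η (m * k)‖ ^ 2 ≤
      (N : ℝ) ^ 2 / Real.log N ^ A := by
  classical
  have h1 := Pool.Agent.Y812.GJ.l2
  obtain ⟨p₁, hp₁⟩ : ∃ p₁ : ℕ, 2 ^ 12 = p₁ := ⟨_, rfl⟩
  obtain ⟨p₂, hp₂⟩ : ∃ p₂ : ℕ, 2 ^ 6 = p₂ := ⟨_, rfl⟩
  have hp21 : p₂ ≤ p₁ := by
    rw [← hp₁, ← hp₂]
    norm_num
  obtain ⟨K₂, hK₂⟩ : ∃ K₂ : ℕ, K₂ = A + 2 * C + p₁ + 20 := ⟨_, rfl⟩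
  obtain ⟨K, hK⟩ : ∃ K : ℕ, K = 2 * K₂ + A + 8 := ⟨_, rfl⟩
  obtain ⟨n1, hn1⟩ := Pool.Agent.TH935.LD.ev_L' 2000000
  obtain ⟨n2, hn2⟩ := Pool.Agent.TH935.LD.log_pow_small (2 * K₂)
  refine ⟨K₂, K, max (max n1 n2) 9, fun N hN q _ Z hZ1 hZZ hqZ a ha1 hamZ b hb η hη S hcell' => ?_⟩
  have hN1 : n1 ≤ N := le_trans (le_trans (le_max_left _ _) (le_max_left _ _)) hN
  have hN2 : n2 ≤ N := le_trans (le_trans (le_max_right _ _) (le_max_left _ _)) hN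
  have hN9 : 9 ≤ N := le_trans (le_max_right _ _) hN
  have hNr : (9 : ℝ) ≤ N := by exact_mod_cast hN9
  have hN0 : (0 : ℝ) < N := by linarith
  have hNr1 : (1 : ℝ) ≤ N := by linarith
  have hqN' : q ≤ N := le_trans (Nat.le_mul_of_pos_right _ hZ1) hqZ
  have hqN : (q : ℝ) ≤ N := by exact_mod_cast hqN'
  have hpow := hn2 N hN2
  have hLL := hn1 N hN1
  have hamN : ∀ m, a m ≠ 0 → m ≤ N := fun m hm =>
    (hamZ m hm).trans (le_trans (Nat.le_mul_of_pos_right _ hZ1) hZZ)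
  have hqm : ∀ m, a m ≠ 0 → (q : ℝ) * m ≤ N := by
    intro m hm
    have h3 : q * m ≤ N := (Nat.mul_le_mul_left _ (hamZ m hm)).trans hqZ
    exact_mod_cast h3
  obtain ⟨L, hL⟩ : ∃ L, L = Real.log (N : ℝ) := ⟨_, rfl⟩
  rw [← hL] at hpow hLL hcell' hb hη ⊢
  have hL1 : 2000000 ≤ L := by linarith
  have hL0 : 0 < L := by linarith
  have hL1' : 1 ≤ L := by linarith
  have ha : ∀ m ∈ Icc 1 N, ‖a m‖ ≤ L * (m.divisors.card : ℝ) := by
    intro m hm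
    rw [mem_Icc] at hm
    have a1 : ‖a m‖ ≤ 1 := ha1 m
    have a2 : (1 : ℝ) ≤ (m.divisors.card : ℝ) := by
      exact_mod_cast (Finset.card_pos.2 ⟨1, Nat.mem_divisors.2 ⟨one_dvd _, by omega⟩⟩ : 0 < m.divisors.card)
    nlinarith
  obtain ⟨δ, hδd⟩ : ∃ δ : ℝ, δ = (L ^ (2 * K₂))⁻¹ := ⟨_, rfl⟩
  rw [← hδd] at hcell'
  have hLp : 0 < L ^ (2 * K₂) := by positivity
  have hδ : 0 < δ := by
    rw [hδd]
    positivity
  have hδ1 : δ ≤ 1 := by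
    rw [hδd]
    exact inv_le_one_of_one_le₀ (one_le_pow₀ hL1')
  have hδL : δ * L ^ (2 * K₂) = 1 := by
    rw [hδd, inv_mul_cancel₀ hLp.ne']
  obtain ⟨I, hI⟩ : ∃ I : ℕ, I = ⌊L / δ⌋₊ + 1 := ⟨_, rfl⟩
  have hI1 : (I : ℝ) ≤ L ^ (2 * K₂ + 2) := by
    have h3 : L / δ = L * L ^ (2 * K₂) := by
      rw [hδd, div_inv_eq_mul]
    have h4 : ((⌊L / δ⌋₊ : ℕ) : ℝ) ≤ L * L ^ (2 * K₂) := by
      rw [← h3]
      exact Nat.floor_le (by positivity)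
    have h5 : 1 ≤ L * L ^ (2 * K₂) := one_le_mul_of_one_le_of_one_le hL1' (one_le_pow₀ hL1')
    rw [hI]
    push_cast
    calc ((⌊L / δ⌋₊ : ℕ) : ℝ) + 1 ≤ 2 * (L * L ^ (2 * K₂)) := by linarith
      _ ≤ L * (L * L ^ (2 * K₂)) := mul_le_mul_of_nonneg_right (by linarith) (by positivity)
      _ = L ^ (2 * K₂ + 2) := by ring
  have hI0 : (0 : ℝ) ≤ I := Nat.cast_nonneg _
  have hη' : N * |η| ≤ L ^ C := by
    rw [le_div_iff₀ hN0] at hη
    linarith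
  -- the error
  obtain ⟨R, hR⟩ : ∃ R : ℝ, R = L ^ (A + 2 * C + 19) := ⟨_, rfl⟩
  have hR1 : 1 ≤ R := by
    rw [hR]
    exact one_le_pow₀ hL1'
  have hR0 : 0 < R := by linarith
  have hδR : δ * (L ^ (2 * p₁) * R ^ 2 * L ^ 2) = 1 := by
    rw [← hδL]
    congr 1
    rw [hR, ← pow_mul, ← pow_add, ← pow_add]
    congr 1
    omega
  have hLpow : ∀ p : ℕ, (1 + L) ^ p ≤ L ^ (2 * p) := by
    intro p
    rw [pow_mul]
    exact pow_le_pow_left₀ (by positivity) (by nlinarith) p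
  obtain ⟨Sv, hS0, hS1', hS2'⟩ := w_sum hp₁ hp₂ hδ hη' ha hb hL0.le
  rw [← hL] at hS1' hS2'
  have hS1 : Sv ^ 2 ≤ (δ * N + 1) * (N * (1 + L) ^ p₁) := hS1'
  have hS2 : ∑ n ∈ Icc 1 N, ‖wn δ N η a b n‖ ^ 2 ≤
      2 * L ^ 4 * (Sv + (7 * (L ^ C * δ)) ^ 2 * (N * (1 + L) ^ p₂)) := hS2'
  clear hp₁ hp₂
  have hSv : Sv ≤ N / R := by
    have h3 : Sv ^ 2 ≤ (N / R) ^ 2 := by
      refine hS1.trans ?_
      have h4 : δ * N + 1 ≤ 2 * (δ * N) := by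
        have h5 : 1 ≤ δ * N := by
          calc (1 : ℝ) = δ * L ^ (2 * K₂) := hδL.symm
            _ ≤ δ * N := mul_le_mul_of_nonneg_left (by linarith) hδ.le
        linarith
      have h6 : (δ * N + 1) * (N * (1 + L) ^ p₁) ≤ 2 * (δ * N) * (N * L ^ (2 * p₁)) :=
        mul_le_mul h4 (mul_le_mul_of_nonneg_left (hLpow p₁) hN0.le) (by positivity) (by positivity)
      refine h6.trans ?_
      rw [div_pow, le_div_iff₀ (by positivity)]
      have h7 : 2 * (δ * N) * (N * L ^ (2 * p₁)) * R ^ 2 =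
          N ^ 2 * (2 * (δ * (L ^ (2 * p₁) * R ^ 2))) := by ring
      rw [h7]
      have h8 : 2 * (δ * (L ^ (2 * p₁) * R ^ 2)) ≤ 1 := by
        have h9 : δ * (L ^ (2 * p₁) * R ^ 2) * L ^ 2 = 1 := by
          rw [← hδR]
          ring
        have h10 : 0 ≤ δ * (L ^ (2 * p₁) * R ^ 2) := by positivity
        have h11 : 2 ≤ L ^ 2 := by nlinarith
        nlinarith
      calc (N : ℝ) ^ 2 * (2 * (δ * (L ^ (2 * p₁) * R ^ 2))) ≤ N ^ 2 * 1 :=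
            mul_le_mul_of_nonneg_left h8 (by positivity)
        _ = N ^ 2 := mul_one _
    exact (pow_le_pow_iff_left₀ hS0 (by positivity) two_ne_zero).1 h3
  have hSw : (7 * (L ^ C * δ)) ^ 2 * (N * (1 + L) ^ p₂) ≤ N / R := by
    rw [le_div_iff₀ hR0]
    have h3 : (1 + L) ^ p₂ ≤ L ^ (2 * p₁) :=
      (hLpow p₂).trans (pow_le_pow_right₀ hL1' (by omega))
    have h4 : 49 * L ^ (2 * C) * δ ≤ 1 := by
      calc 49 * L ^ (2 * C) * δ ≤ L ^ (2 * K₂) * δ := by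
            refine mul_le_mul_of_nonneg_right ?_ hδ.le
            calc 49 * L ^ (2 * C) ≤ L * L ^ (2 * C) :=
                  mul_le_mul_of_nonneg_right (by linarith) (by positivity)
              _ = L ^ (2 * C + 1) := by ring
              _ ≤ L ^ (2 * K₂) := pow_le_pow_right₀ hL1' (by omega)
        _ = 1 := by rw [mul_comm, hδL]
    have h5 : δ * L ^ (2 * p₁) * R ≤ 1 := by
      have h6 : R ≤ R ^ 2 * L ^ 2 := by
        have h7 : R * 1 ≤ R * (R * L ^ 2) :=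
          mul_le_mul_of_nonneg_left (one_le_mul_of_one_le_of_one_le hR1 (one_le_pow₀ hL1')) hR0.le
        calc R = R * 1 := (mul_one R).symm
          _ ≤ R * (R * L ^ 2) := h7
          _ = R ^ 2 * L ^ 2 := by ring
      calc δ * L ^ (2 * p₁) * R ≤ δ * L ^ (2 * p₁) * (R ^ 2 * L ^ 2) :=
            mul_le_mul_of_nonneg_left h6 (by positivity)
        _ = 1 := by
          rw [← hδR]
          ring
    have h6 : (7 * (L ^ C * δ)) ^ 2 * (N * (1 + L) ^ p₂) * R ≤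
        (49 * L ^ (2 * C) * δ) * (δ * L ^ (2 * p₁) * R) * N := by
      have h7 : (7 * (L ^ C * δ)) ^ 2 = 49 * L ^ (2 * C) * δ * δ := by
        rw [pow_mul']
        ring
      rw [h7]
      calc 49 * L ^ (2 * C) * δ * δ * (N * (1 + L) ^ p₂) * R =
          (49 * L ^ (2 * C) * δ * δ * N * R) * (1 + L) ^ p₂ := by ring
        _ ≤ (49 * L ^ (2 * C) * δ * δ * N * R) * L ^ (2 * p₁) :=
          mul_le_mul_of_nonneg_left h3 (by positivity)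
        _ = _ := by ring
    refine h6.trans ?_
    calc (49 * L ^ (2 * C) * δ) * (δ * L ^ (2 * p₁) * R) * N ≤ (1 * 1) * N := by
          refine mul_le_mul_of_nonneg_right ?_ hN0.le
          exact mul_le_mul h4 h5 (by positivity) zero_le_one
      _ = N := by ring
  have herr : ∑ χ ∈ S, ‖∑ n ∈ Icc 1 N, wn δ N η a b n * χ (n : ZMod q)‖ ^ 2 ≤
      (2 * N) * (2 * L ^ 4 * (2 * (N / R))) := by
    have h3 := (h1 q N (wn δ N η a b)).1
    have h4 : ∑ χ ∈ S, ‖∑ n ∈ Icc 1 N, wn δ N η a b n * χ (n : ZMod q)‖ ^ 2 ≤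
        ∑ χ : DirichletCharacter ℂ q, ‖∑ n ∈ Icc 1 N, wn δ N η a b n * χ (n : ZMod q)‖ ^ 2 :=
      sum_le_sum_of_subset_of_nonneg (subset_univ S) fun χ _ _ => by positivity
    refine h4.trans (h3.trans ?_)
    refine mul_le_mul (by linarith) (hS2.trans ?_) (sum_nonneg fun _ _ => by positivity)
      (by positivity)
    exact mul_le_mul_of_nonneg_left (by linarith) (by positivity)
  -- the main part
  have hmain : ∑ χ ∈ S, ‖∑ i ∈ range I, (∑ m ∈ Icc 1 (Xi δ i), ai δ a i m * χ (m : ZMod q)) *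
      (∑ k ∈ Icc 1 (Yi δ N i), b k * ee (gi δ i * k * η) * χ (k : ZMod q))‖ ^ 2 ≤
      I * (I * (((L ^ K)⁻¹) ^ 2 * (2 * N ^ 2 * ((2 * L) ^ 2 * (2 * L) ^ 4)))) := by
    refine (sum_le_sum fun χ _ => sq_sum_norm I _).trans ?_
    rw [← mul_sum, sum_comm]
    refine mul_le_mul_of_nonneg_left ?_ hI0
    have h3 : ∀ i ∈ range I, ∑ χ ∈ S, ‖(∑ m ∈ Icc 1 (Xi δ i), ai δ a i m * χ (m : ZMod q)) *
        (∑ k ∈ Icc 1 (Yi δ N i), b k * ee (gi δ i * k * η) * χ (k : ZMod q))‖ ^ 2 ≤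
        ((L ^ K)⁻¹) ^ 2 * (2 * N ^ 2 * ((2 * L) ^ 2 * (2 * L) ^ 4)) := by
      intro i hi
      refine one_class2 h1 hδ (by omega) le_rfl (by rw [← hL]; linarith) (fun m _ h => hqm m h) ?_ S ?_
      · intro m hm
        refine (hb m hm).trans (mul_le_mul_of_nonneg_right (by linarith) (Nat.cast_nonneg _))
      · intro χ hχ
        exact hcell' χ hχ i
    refine (sum_le_sum h3).trans (le_of_eq ?_)
    rw [sum_const, card_range, nsmul_eq_mul]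
  -- the decomposition
  rw [norm_ev S η N (fun m k => a m * b k)]
  have hdec : ∀ χ : DirichletCharacter ℂ q, ‖∑ m ∈ Icc 1 N, ∑ k ∈ Icc 1 (N / m),
      a m * b k * (χ ((m * k : ℕ) : ZMod q) * ee ((m * k : ℕ) * η))‖ ^ 2 ≤
      2 * ‖∑ i ∈ range I, (∑ m ∈ Icc 1 (Xi δ i), ai δ a i m * χ (m : ZMod q)) *
      (∑ k ∈ Icc 1 (Yi δ N i), b k * ee (gi δ i * k * η) * χ (k : ZMod q))‖ ^ 2 +
      2 * ‖∑ n ∈ Icc 1 N, wn δ N η a b n * χ (n : ZMod q)‖ ^ 2 := by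
    intro χ
    have h3 := decomp (η := η) (N := N) (I := I) hδ (a := a) (b := b) (by
      intro m hm h0
      have h5 : m ≤ N := hamN m h0
      refine ⟨h5, ?_⟩
      rw [hI, Nat.lt_succ_iff]
      unfold ci
      refine Nat.floor_le_floor (div_le_div_of_nonneg_right ?_ hδ.le)
      rw [hL]
      exact Real.log_le_log (by exact_mod_cast hm) (by exact_mod_cast h5))
      (fun n => χ (n : ZMod q)) (fun m k => by rw [Nat.cast_mul, map_mul])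
    rw [h3]
    refine (pow_le_pow_left₀ (norm_nonneg _) (norm_add_le _ _) 2).trans ?_
    have h4 : ∀ x y : ℝ, (x + y) ^ 2 ≤ 2 * x ^ 2 + 2 * y ^ 2 := fun x y => by
      nlinarith [sq_nonneg (x - y)]
    exact h4 _ _
  refine (sum_le_sum fun χ _ => hdec χ).trans ?_
  rw [sum_add_distrib, ← mul_sum, ← mul_sum]
  have hA0 : 0 < L ^ A := by positivity
  have f1 : 2 * (I * (I * (((L ^ K)⁻¹) ^ 2 * (2 * N ^ 2 * ((2 * L) ^ 2 * (2 * L) ^ 4))))) ≤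
      (N : ℝ) ^ 2 / L ^ A / 2 := by
    rw [div_div, le_div_iff₀ (by positivity)]
    have h3 : (I : ℝ) * I ≤ L ^ (2 * K₂ + 2) * L ^ (2 * K₂ + 2) :=
      mul_le_mul hI1 hI1 hI0 (by positivity)
    have h4 : ((L ^ K)⁻¹) ^ 2 * (L ^ (2 * K₂ + 2) * L ^ (2 * K₂ + 2) * L ^ 11 * L ^ A) ≤ 1 := by
      rw [inv_pow, ← pow_mul, ← pow_add, ← pow_add, ← pow_add, inv_mul_le_iff₀ (by positivity),
        mul_one]
      exact pow_le_pow_right₀ hL1' (by omega)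
    have h5 : 512 * L ^ 6 ≤ L ^ 11 := by
      have h6 : (512 : ℝ) ≤ L ^ 5 := by
        calc (512 : ℝ) ≤ L := by linarith
          _ = L ^ 1 := (pow_one L).symm
          _ ≤ L ^ 5 := pow_le_pow_right₀ hL1' (by norm_num)
      calc 512 * L ^ 6 ≤ L ^ 5 * L ^ 6 := mul_le_mul_of_nonneg_right h6 (by positivity)
        _ = L ^ 11 := by ring
    calc 2 * ((I : ℝ) * (I * (((L ^ K)⁻¹) ^ 2 * (2 * N ^ 2 * ((2 * L) ^ 2 * (2 * L) ^ 4))))) *
          (L ^ A * 2) = ((I : ℝ) * I) * (((L ^ K)⁻¹) ^ 2 * N ^ 2 * L ^ A * (512 * L ^ 6)) := by ring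
      _ ≤ (L ^ (2 * K₂ + 2) * L ^ (2 * K₂ + 2)) * (((L ^ K)⁻¹) ^ 2 * N ^ 2 * L ^ A * L ^ 11) :=
        mul_le_mul h3 (mul_le_mul_of_nonneg_left h5 (by positivity)) (by positivity) (by positivity)
      _ = N ^ 2 * (((L ^ K)⁻¹) ^ 2 * (L ^ (2 * K₂ + 2) * L ^ (2 * K₂ + 2) * L ^ 11 * L ^ A)) := by
        ring
      _ ≤ N ^ 2 * 1 := mul_le_mul_of_nonneg_left h4 (by positivity)
      _ = N ^ 2 := mul_one _
  have f2 : 2 * ((2 * N) * (2 * L ^ 4 * (2 * (N / R)))) ≤ (N : ℝ) ^ 2 / L ^ A / 2 := by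
    have h3 : 2 * ((2 * N) * (2 * L ^ 4 * (2 * (N / R)))) = 16 * L ^ 4 * N ^ 2 / R := by ring
    rw [h3, div_div, div_le_div_iff₀ hR0 (by positivity)]
    have h4 : 32 * L ^ 4 * L ^ A ≤ R := by
      rw [hR]
      calc 32 * L ^ 4 * L ^ A ≤ L * L ^ 4 * L ^ A := by
            refine mul_le_mul_of_nonneg_right (mul_le_mul_of_nonneg_right (by linarith) ?_) ?_
            · positivity
            · positivity
        _ = L ^ (A + 5) := by ring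
        _ ≤ L ^ (A + 2 * C + 19) := pow_le_pow_right₀ hL1' (by omega)
    calc 16 * L ^ 4 * N ^ 2 * (L ^ A * 2) = N ^ 2 * (32 * L ^ 4 * L ^ A) := by ring
      _ ≤ N ^ 2 * R := mul_le_mul_of_nonneg_left h4 (by positivity)
  have f3 := mul_le_mul_of_nonneg_left hmain zero_le_two
  have f4 := mul_le_mul_of_nonneg_left herr zero_le_two
  linarith

end Pool.Agent.T9h57.LN
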