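import Pool.Agent.T9h57.LM.TK

/-!
# The inequality of Turán and Kubilius, for the primes which do not divide the modulus
-/

set_option autoImplicit false

namespace Pool.Agent.T9h57.LN

open Finset
open Pool.Agent.T9h57.LM (lc lc_mul lc_norm lc_prime cnt)

open Classical in
/-- the primes in `(W, Z]` which do not divide `q` -/
noncomputable def pq (W Z q m : ℕ) : ℂ := if m.Prime ∧ W < m ∧ m ≤ Z ∧ ¬ m ∣ q then 1 else 0

open Classical in
lemma pq_supp {W Z q m : ℕ} (h : pq W Z q m ≠ 0) : m.Prime ∧ W < m ∧ m ≤ Z ∧ ¬ m ∣ q := by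
  unfold pq at h
  by_contra hc
  exact h (if_neg hc)

open Classical in
lemma pq_norm (W Z q m : ℕ) : ‖pq W Z q m‖ ≤ 1 := by
  unfold pq
  split_ifs <;> simp

/-- the primes in `(W, Z]` which do not divide `q` -/
def PR (W Z q : ℕ) : Finset ℕ := (Ioc W Z).filter (fun p => p.Prime ∧ ¬ p ∣ q)

/-- the sum of the reciprocals of these primes -/
noncomputable def EE (W Z q : ℕ) : ℝ := ∑ p ∈ PR W Z q, (1 : ℝ) / p

/-- the number of the prime factors in `(W, Z]` -/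
noncomputable def om (W Z q n : ℕ) : ℝ := ∑ p ∈ PR W Z q, if p ∣ n then (1 : ℝ) else 0

lemma PR_mem {W Z q p : ℕ} : p ∈ PR W Z q ↔ (W < p ∧ p ≤ Z) ∧ p.Prime ∧ ¬ p ∣ q := by
  unfold PR
  rw [mem_filter, mem_Ioc]

lemma EE_nonneg (W Z q : ℕ) : 0 ≤ EE W Z q := sum_nonneg fun p _ => by positivity

lemma om_nonneg (W Z q n : ℕ) : 0 ≤ om W Z q n := sum_nonneg fun p _ => by split_ifs <;> norm_num

lemma om_sum {W Z q N : ℕ} : (N : ℝ) * EE W Z q - Z ≤ ∑ n ∈ Icc 1 N, om W Z q n := by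
  unfold om EE
  rw [sum_comm, mul_sum]
  have h1 : ((PR W Z q).card : ℝ) ≤ Z := by
    have h2 : (PR W Z q).card ≤ (Ioc W Z).card := card_filter_le _ _
    rw [Nat.card_Ioc] at h2
    exact_mod_cast h2.trans (Nat.sub_le _ _)
  have h3 : ∀ p ∈ PR W Z q, (N : ℝ) * (1 / p) - 1 ≤ ∑ n ∈ Icc 1 N, (if p ∣ n then (1 : ℝ) else 0) := by
    intro p hp
    have hp0 : (0 : ℝ) < p := by exact_mod_cast (PR_mem.1 hp).2.1.pos
    rw [cnt]
    have h4 : N < p * (N / p + 1) := Nat.lt_mul_div_succ N (PR_mem.1 hp).2.1.pos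
    have h5 : (N : ℝ) < p * (((N / p : ℕ) : ℝ) + 1) := by exact_mod_cast h4
    have h6 : (N : ℝ) * (1 / p) < ((N / p : ℕ) : ℝ) + 1 := by
      rw [mul_one_div, div_lt_iff₀ hp0]
      linarith
    linarith
  have h7 := sum_le_sum h3
  rw [sum_sub_distrib, sum_const, nsmul_eq_mul, mul_one] at h7
  linarith

lemma om_sq_sum {W Z q N : ℕ} : ∑ n ∈ Icc 1 N, om W Z q n ^ 2 ≤ (N : ℝ) * EE W Z q ^ 2 + N * EE W Z q := by
  have h1 : ∀ n ∈ Icc 1 N, om W Z q n ^ 2 = ∑ p ∈ PR W Z q, ∑ p' ∈ PR W Z q,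
      (if p ∣ n then (1 : ℝ) else 0) * (if p' ∣ n then (1 : ℝ) else 0) := by
    intro n _
    unfold om
    rw [sq, sum_mul_sum]
  rw [sum_congr rfl h1, sum_comm]
  have h2 : ∀ p ∈ PR W Z q, ∑ n ∈ Icc 1 N, ∑ p' ∈ PR W Z q,
      (if p ∣ n then (1 : ℝ) else 0) * (if p' ∣ n then (1 : ℝ) else 0) ≤
      ∑ p' ∈ PR W Z q, ((N : ℝ) * ((1 / p) * (1 / p')) + if p' = p then (N : ℝ) * (1 / p) else 0) := by
    intro p hp
    rw [sum_comm]
    refine sum_le_sum fun p' hp' => ?_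
    by_cases hpp : p' = p
    · subst hpp
      rw [if_pos rfl]
      have e1 : ∑ n ∈ Icc 1 N, (if p' ∣ n then (1 : ℝ) else 0) * (if p' ∣ n then (1 : ℝ) else 0) =
          ∑ n ∈ Icc 1 N, (if p' ∣ n then (1 : ℝ) else 0) := by
        refine sum_congr rfl fun n _ => ?_
        split_ifs <;> norm_num
      rw [e1, cnt]
      have e2 : ((N / p' : ℕ) : ℝ) ≤ (N : ℝ) * (1 / p') := by
        rw [mul_one_div]
        exact Nat.cast_div_le
      have e3 : 0 ≤ (N : ℝ) * ((1 / p') * (1 / p')) := by positivity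
      linarith
    · rw [if_neg hpp, add_zero]
      have hc : p.Coprime p' := (Nat.coprime_primes (PR_mem.1 hp).2.1 (PR_mem.1 hp').2.1).2 (Ne.symm hpp)
      have e1 : ∑ n ∈ Icc 1 N, (if p ∣ n then (1 : ℝ) else 0) * (if p' ∣ n then (1 : ℝ) else 0) =
          ∑ n ∈ Icc 1 N, (if p * p' ∣ n then (1 : ℝ) else 0) := by
        refine sum_congr rfl fun n _ => ?_
        by_cases h3 : p ∣ n
        · by_cases h4 : p' ∣ n
          · rw [if_pos h3, if_pos h4, if_pos (Nat.Coprime.mul_dvd_of_dvd_of_dvd hc h3 h4), one_mul]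
          · rw [if_neg h4, mul_zero, if_neg (fun h => h4 (dvd_trans (Dvd.intro_left _ rfl) h))]
        · rw [if_neg h3, zero_mul, if_neg (fun h => h3 (dvd_trans (Dvd.intro _ rfl) h))]
      rw [e1, cnt]
      calc ((N / (p * p') : ℕ) : ℝ) ≤ (N : ℝ) / ((p * p' : ℕ) : ℝ) := Nat.cast_div_le
        _ = (N : ℝ) * ((1 / p) * (1 / p')) := by
            push_cast
            field_simp
  refine (sum_le_sum h2).trans (le_of_eq ?_)
  have h3 : ∀ p ∈ PR W Z q, ∑ p' ∈ PR W Z q, ((N : ℝ) * ((1 / p) * (1 / p')) + if p' = p then (N : ℝ) * (1 / p) else 0) =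
      (N : ℝ) * ((1 / p) * EE W Z q) + N * (1 / p) := by
    intro p hp
    rw [sum_add_distrib, sum_ite_eq' , if_pos hp]
    unfold EE
    rw [mul_sum, mul_sum]
  rw [sum_congr rfl h3, sum_add_distrib, ← mul_sum, ← mul_sum, ← sum_mul]
  unfold EE
  ring

/-- the inequality of Turán and Kubilius -/
theorem tk {W Z q N : ℕ} (hZN : Z ≤ N) (hE : 0 < EE W Z q) :
    ∑ n ∈ Icc 1 N, (1 - om W Z q n / EE W Z q) ^ 2 ≤ 3 * N / EE W Z q := by
  obtain ⟨E, hEd⟩ : ∃ E, E = EE W Z q := ⟨_, rfl⟩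
  have h1 := om_sum (W := W) (Z := Z) (q := q) (N := N)
  have h2 := om_sq_sum (W := W) (Z := Z) (q := q) (N := N)
  rw [← hEd] at h1 h2 hE ⊢
  have hZNr : (Z : ℝ) ≤ N := by exact_mod_cast hZN
  have h3 : ∑ n ∈ Icc 1 N, (1 - om W Z q n / E) ^ 2 =
      N - 2 / E * ∑ n ∈ Icc 1 N, om W Z q n + 1 / E ^ 2 * ∑ n ∈ Icc 1 N, om W Z q n ^ 2 := by
    rw [mul_sum, mul_sum]
    have h4 : (N : ℝ) = ∑ n ∈ Icc 1 N, (1 : ℝ) := by
      rw [sum_const, Nat.card_Icc, nsmul_eq_mul, mul_one, Nat.add_sub_cancel]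
    conv_rhs => rw [h4]
    rw [← sum_sub_distrib, ← sum_add_distrib]
    refine sum_congr rfl fun n _ => ?_
    field_simp
    ring
  rw [h3]
  have h4 : 2 / E * (N * E - Z) ≤ 2 / E * ∑ n ∈ Icc 1 N, om W Z q n :=
    mul_le_mul_of_nonneg_left h1 (by positivity)
  have h5 : 1 / E ^ 2 * ∑ n ∈ Icc 1 N, om W Z q n ^ 2 ≤ 1 / E ^ 2 * (N * E ^ 2 + N * E) :=
    mul_le_mul_of_nonneg_left h2 (by positivity)
  have h6 : 2 / E * (N * E - Z) = 2 * N - 2 * Z / E := by field_simp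
  have h7 : 1 / E ^ 2 * ((N : ℝ) * E ^ 2 + N * E) = N + N / E := by field_simp
  have h8 : 2 * (Z : ℝ) / E ≤ 2 * N / E := by gcongr
  have h9 : 3 * (N : ℝ) / E = 2 * N / E + N / E := by ring
  rw [h6] at h4
  rw [h7] at h5
  rw [h9]
  linarith

/-- the main part -/
noncomputable def Gw (W Z q n : ℕ) : ℂ := (om W Z q n : ℂ) * lc n

open Classical in
lemma Gw_eq {W Z q n : ℕ} (hn : 1 ≤ n) : Gw W Z q n = -∑ d ∈ n.divisors, pq W Z q d * lc (n / d) := by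
  have hset : n.divisors.filter (fun d => d.Prime ∧ W < d ∧ d ≤ Z ∧ ¬ d ∣ q) = (PR W Z q).filter (fun p => p ∣ n) := by
    ext p
    rw [mem_filter, mem_filter, PR_mem, Nat.mem_divisors]
    constructor
    · rintro ⟨⟨h1, h2⟩, h3, h4, h5, h6⟩
      exact ⟨⟨⟨h4, h5⟩, h3, h6⟩, h1⟩
    · rintro ⟨⟨⟨h4, h5⟩, h3, h6⟩, h1⟩
      exact ⟨⟨h1, by omega⟩, h3, h4, h5, h6⟩
  have h1 : ∑ d ∈ n.divisors, pq W Z q d * lc (n / d) = ∑ p ∈ (PR W Z q).filter (fun p => p ∣ n), -lc n := by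
    rw [← hset, sum_filter]
    refine sum_congr rfl fun d hd => ?_
    unfold pq
    by_cases h : d.Prime ∧ W < d ∧ d ≤ Z ∧ ¬ d ∣ q
    · rw [if_pos h, if_pos h, one_mul]
      have h2 : lc n = lc d * lc (n / d) := by
        rw [← lc_mul, Nat.mul_div_cancel' (Nat.dvd_of_mem_divisors hd)]
      rw [h2, lc_prime h.1]
      ring
    · rw [if_neg h, if_neg h, zero_mul]
  rw [h1, sum_const, nsmul_eq_mul]
  unfold Gw om
  rw [← sum_filter, sum_const, nsmul_eq_mul, mul_one]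
  push_cast
  ring

lemma om_mul {W Z q d n : ℕ} (hd : ∀ p ∈ PR W Z q, ¬ p ∣ d) : om W Z q (d * n) = om W Z q n := by
  unfold om
  refine sum_congr rfl fun p hp => ?_
  have hdp := hd p hp
  rw [PR_mem] at hp
  have h1 : p ∣ d * n ↔ p ∣ n := by
    rw [hp.2.1.dvd_mul]
    constructor
    · rintro (h | h)
      · exact absurd h hdp
      · exact h
    · exact Or.inr
  simp only [h1]

lemma Gw_mul {W Z q d n : ℕ} (hd : ∀ p ∈ PR W Z q, ¬ p ∣ d) : Gw W Z q (d * n) = lc d * Gw W Z q n := by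
  unfold Gw
  rw [om_mul hd, lc_mul]
  ring

lemma om_le {W Z q n : ℕ} (hn : 1 ≤ n) : om W Z q n ≤ (n.divisors.card : ℝ) := by
  classical
  unfold om
  rw [← sum_filter, sum_const, nsmul_eq_mul, mul_one]
  have h : (PR W Z q).filter (fun p => p ∣ n) ⊆ n.divisors := by
    intro p hp
    rw [mem_filter] at hp
    exact Nat.mem_divisors.2 ⟨hp.2, by omega⟩
  exact_mod_cast card_le_card h

lemma Gw_norm {W Z q n : ℕ} (hn : 1 ≤ n) : ‖Gw W Z q n‖ ≤ (n.divisors.card : ℝ) := by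
  unfold Gw
  rw [norm_mul, Complex.norm_real, Real.norm_eq_abs, abs_of_nonneg (om_nonneg _ _ _ _)]
  calc om W Z q n * ‖lc n‖ ≤ om W Z q n * 1 := mul_le_mul_of_nonneg_left (lc_norm n) (om_nonneg _ _ _ _)
    _ = om W Z q n := mul_one _
    _ ≤ _ := om_le hn


lemma card_pf {q : ℕ} (hq : 1 ≤ q) : (q.primeFactors.card : ℝ) ≤ 2 * Real.log q := by
  have h1 : 2 ^ q.primeFactors.card ≤ q := by
    calc 2 ^ q.primeFactors.card ≤ ∏ p ∈ q.primeFactors, p :=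
          Finset.pow_card_le_prod _ _ _ fun p hp => (Nat.prime_of_mem_primeFactors hp).two_le
      _ ≤ q := Nat.le_of_dvd hq (Nat.prod_primeFactors_dvd q)
  have h2 : Real.log ((2 : ℝ) ^ q.primeFactors.card) ≤ Real.log q :=
    Real.log_le_log (by positivity) (by exact_mod_cast h1)
  rw [Real.log_pow] at h2
  have h3 := Real.log_two_gt_d9
  have h4 : (0 : ℝ) ≤ q.primeFactors.card := Nat.cast_nonneg _
  nlinarith

/-- the sum of the reciprocals is large -/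
theorem EE_bigq (E0 : ℝ) {κ₁ κ₂ : ℝ} (h1 : 0 < κ₁) (h12 : κ₁ < κ₂) (hr : Real.exp (E0 + 2) * κ₁ ≤ κ₂) :
    ∃ N₀ : ℕ, ∀ N : ℕ, N₀ ≤ N → ∀ q : ℕ, 1 ≤ q → q ≤ N → E0 ≤ EE ⌊(N : ℝ) ^ κ₁⌋₊ ⌊(N : ℝ) ^ κ₂⌋₊ q := by
  classical
  obtain ⟨N₁, hN₁⟩ := Pool.Agent.T9h57.LM.EE_big (E0 + 1) h1 h12 (by rw [show E0 + 1 + 1 = E0 + 2 by ring]; exact hr)
  obtain ⟨N₂, hN₂⟩ := Filter.eventually_atTop.1
    (Pool.Agent.Y614.GJ.Core.ev_log 1 (s := κ₁ / 2) (by positivity) 4)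
  refine ⟨N₁ + N₂ + 1, fun N hN q hq1 hqN => ?_⟩
  have hb := hN₁ N (by omega)
  obtain ⟨hL4, hLx⟩ := hN₂ N (by omega)
  have hN0 : (0 : ℝ) < N := by exact_mod_cast (by omega : 0 < N)
  obtain ⟨W, hW⟩ : ∃ W, W = ⌊(N : ℝ) ^ κ₁⌋₊ := ⟨_, rfl⟩
  obtain ⟨Z, hZ⟩ : ∃ Z, Z = ⌊(N : ℝ) ^ κ₂⌋₊ := ⟨_, rfl⟩
  rw [← hW, ← hZ] at hb ⊢
  obtain ⟨x, hx⟩ : ∃ x, x = (N : ℝ) ^ (κ₁ / 2) := ⟨_, rfl⟩
  have hx2 : (N : ℝ) ^ κ₁ = x * x := by
    rw [hx, ← Real.rpow_add hN0]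
    congr 1
    ring
  rw [pow_one, ← hx] at hLx
  have h5 : (N : ℝ) ^ κ₁ < (W : ℝ) + 1 := by rw [hW]; exact Nat.lt_floor_add_one _
  have hWx : 2 * x ≤ W := by
    rw [hx2] at h5
    nlinarith
  have hW0 : (0 : ℝ) < W := by linarith
  have hsplit : Pool.Agent.T9h57.LM.EE W Z = EE W Z q +
      ∑ p ∈ (Pool.Agent.T9h57.LM.PR W Z).filter (fun p => p ∣ q), (1 : ℝ) / p := by
    unfold Pool.Agent.T9h57.LM.EE EE
    rw [← sum_filter_add_sum_filter_not (Pool.Agent.T9h57.LM.PR W Z) (fun p => p ∣ q), add_comm]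
    congr 1
    refine sum_congr ?_ fun _ _ => rfl
    unfold PR Pool.Agent.T9h57.LM.PR
    rw [filter_filter]
  have hsmall : ∑ p ∈ (Pool.Agent.T9h57.LM.PR W Z).filter (fun p => p ∣ q), (1 : ℝ) / p ≤ 1 := by
    calc ∑ p ∈ (Pool.Agent.T9h57.LM.PR W Z).filter (fun p => p ∣ q), (1 : ℝ) / p ≤
        ∑ p ∈ (Pool.Agent.T9h57.LM.PR W Z).filter (fun p => p ∣ q), (1 : ℝ) / W := by
          refine sum_le_sum fun p hp => ?_
          rw [mem_filter, Pool.Agent.T9h57.LM.PR_mem] at hp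
          apply one_div_le_one_div_of_le hW0
          exact_mod_cast hp.1.1.1.le
      _ = (((Pool.Agent.T9h57.LM.PR W Z).filter (fun p => p ∣ q)).card : ℝ) * (1 / W) := by
          rw [sum_const, nsmul_eq_mul]
      _ ≤ (q.primeFactors.card : ℝ) * (1 / W) := by
          refine mul_le_mul_of_nonneg_right ?_ (by positivity)
          have : (Pool.Agent.T9h57.LM.PR W Z).filter (fun p => p ∣ q) ⊆ q.primeFactors := by
            intro p hp
            rw [mem_filter, Pool.Agent.T9h57.LM.PR_mem] at hp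
            exact Nat.mem_primeFactors.2 ⟨hp.1.2, hp.2, by omega⟩
          exact_mod_cast card_le_card this
      _ ≤ (2 * Real.log N) * (1 / W) := by
          refine mul_le_mul_of_nonneg_right ?_ (by positivity)
          refine (card_pf hq1).trans ?_
          have : Real.log q ≤ Real.log N := Real.log_le_log (by exact_mod_cast hq1) (by exact_mod_cast hqN)
          linarith
      _ ≤ 1 := by
          rw [mul_one_div, div_le_one hW0]
          linarith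
  linarith

end Pool.Agent.T9h57.LN
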