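import Pool.Agent.T9h57.LN.Few

/-!
# The exceptional integers
-/

set_option autoImplicit false

namespace Pool.Agent.T9h57.LN

open Finset
open Pool.Agent.Y883.GJ
open Pool.Agent.R460.GR (Bd dl)
open Pool.Agent.T9h57.PK (rad rad_pos rad_mul_le rad_le)
open Pool.Agent.T9h57.LM (pa ci_eq cells)
open Pool.Agent.Y183.GJ (ci gi Xi ai gi_pos gi_succ)

open Classical in
/-- the bad conductors -/
noncomputable def E1 (N K₂ K W₀ Z₀ : ℕ) : Finset ℕ :=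
  (Icc 2 N).filter (fun f => ∃ ψ : DirichletCharacter ℂ f, ψ.IsPrimitive ∧ Bd N K₂ K (pa W₀ Z₀) f ψ)

/-- the exceptional integers -/
def E2 (E : Finset ℕ) (m : ℕ) : Finset ℕ := (E ×ˢ range m).image (fun p => p.1 / Nat.gcd p.1 (p.2 + 1))

lemma pa_norm1 (W Z m : ℕ) : ‖pa W Z m‖ ≤ 1 := by
  unfold pa
  split_ifs <;> simp

theorem E1_card (K₂ K : ℕ) {κ : ℝ} (hκ : 0 < κ) : ∃ C₃ N₀ : ℕ, ∀ N : ℕ, N₀ ≤ N → ∀ W₀ Z₀ : ℕ,
    (N : ℝ) ^ κ ≤ W₀ → (Z₀ : ℝ) ≤ (N : ℝ) ^ (1 / 2 : ℝ) →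
    ((E1 N K₂ K W₀ Z₀).card : ℝ) ≤ Real.log N ^ C₃ := by
  classical
  obtain ⟨J, hJ⟩ : ∃ J : ℕ, J = ⌈2 / κ⌉₊ := ⟨_, rfl⟩
  have hJ1 : 1 ≤ J := by
    rw [hJ]
    exact Nat.ceil_pos.2 (by positivity)
  have hJκ : 2 * (1 : ℝ) ≤ J * κ := by
    have h : 2 / κ ≤ J := by rw [hJ]; exact Nat.le_ceil _
    rw [div_le_iff₀ hκ] at h
    linarith
  obtain ⟨C₃, N₁, h1⟩ := Pool.Agent.T9h57.GL.countK3 K₂ K J 1 κ (1 / 2) hJ1 hκ hJκ le_rfl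
  obtain ⟨N₂, hN₂⟩ := Filter.eventually_atTop.1 (Pool.Agent.Y614.GJ.Core.ev_log 1 (s := 1) (by norm_num) 1)
  refine ⟨C₃, N₁ + N₂ + 1, fun N hN W₀ Z₀ hW₀ hZ₀ => ?_⟩
  obtain ⟨hL1, -⟩ := hN₂ N (by omega)
  have hch : ∀ f : ℕ, ∃ ψ : DirichletCharacter ℂ f, f ∈ E1 N K₂ K W₀ Z₀ →
      (ψ.IsPrimitive ∧ Bd N K₂ K (pa W₀ Z₀) f ψ) := by
    intro f
    by_cases hf : f ∈ E1 N K₂ K W₀ Z₀
    · have hf' := hf
      unfold E1 at hf'
      rw [mem_filter] at hf'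
      obtain ⟨ψ, hψ⟩ := hf'.2
      exact ⟨ψ, fun _ => hψ⟩
    · exact ⟨1, fun h => absurd h hf⟩
  choose F hF using hch
  have h2 := h1 N (by omega) (pa W₀ Z₀) (by
    intro m hm
    rw [mem_Icc] at hm
    have a2 : (1 : ℝ) ≤ (m.divisors.card : ℝ) := by
      exact_mod_cast (Finset.card_pos.2 ⟨1, Nat.mem_divisors.2 ⟨one_dvd _, by omega⟩⟩ : 0 < m.divisors.card)
    have a1 := pa_norm1 W₀ Z₀ m
    nlinarith) (by
    intro m hm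
    have hm' : m.Prime ∧ W₀ < m ∧ m ≤ Z₀ := by
      unfold pa at hm
      by_contra hc
      exact hm (if_neg hc)
    have h3 : (W₀ : ℝ) ≤ m := by exact_mod_cast hm'.2.1.le
    have h4 : (m : ℝ) ≤ Z₀ := by exact_mod_cast hm'.2.2
    have h5 : (0 : ℝ) ≤ m := Nat.cast_nonneg _
    exact ⟨by linarith, by linarith⟩)
    ((E1 N K₂ K W₀ Z₀).image (fun f => (⟨f, F f⟩ : Σ f : ℕ, DirichletCharacter ℂ f))) (by
    intro ψ hψ
    rw [mem_image] at hψ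
    obtain ⟨f, hf, rfl⟩ := hψ
    have hf' := hf
    unfold E1 at hf'
    rw [mem_filter, mem_Icc] at hf'
    refine ⟨by show 1 ≤ f; omega, ?_, (hF f hf).1, (hF f hf).2⟩
    rw [Real.rpow_one]
    show (f : ℝ) ≤ N
    exact_mod_cast hf'.1.2)
  rw [card_image_of_injOn (fun d _ d' _ h => congrArg Sigma.fst h)] at h2
  exact h2

lemma E2_card (E : Finset ℕ) (m : ℕ) : (E2 E m).card ≤ E.card * m := by
  unfold E2
  refine card_image_le.trans ?_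
  rw [card_product, card_range]

/-- moduli which are not divisible by an exceptional integer -/
lemma E2_reg {E : Finset ℕ} {m q j d : ℕ} (hq : ∀ e ∈ E2 E m, ¬ e ∣ q) (hj : j + 1 ≤ m)
    (hd : d ∣ (j + 1) * q) : d ∉ E := by
  intro h
  apply hq (d / Nat.gcd d (j + 1))
  · unfold E2
    rw [mem_image]
    refine ⟨(d, j), ?_, rfl⟩
    rw [mem_product, mem_range]
    exact ⟨h, by omega⟩
  · have h2 : d / Nat.gcd d (j + 1) ∣ (j + 1) / Nat.gcd d (j + 1) * q := by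
      have hg : 0 < Nat.gcd d (j + 1) := Nat.gcd_pos_of_pos_right _ (Nat.succ_pos j)
      obtain ⟨x, hx⟩ := Nat.gcd_dvd_left d (j + 1)
      obtain ⟨y, hy⟩ := Nat.gcd_dvd_right d (j + 1)
      obtain ⟨g, hgd⟩ : ∃ g, g = Nat.gcd d (j + 1) := ⟨_, rfl⟩
      rw [← hgd] at hx hy hg ⊢
      rw [hx, Nat.mul_div_cancel_left x hg]
      rw [hy, Nat.mul_div_cancel_left y hg]
      rw [hx, hy, mul_assoc] at hd
      exact Nat.dvd_of_mul_dvd_mul_left hg hd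
    have h3 : Nat.Coprime (d / Nat.gcd d (j + 1)) ((j + 1) / Nat.gcd d (j + 1)) :=
      Nat.coprime_div_gcd_div_gcd (Nat.gcd_pos_of_pos_right _ (Nat.succ_pos j))
    exact h3.dvd_of_dvd_mul_left h2

/-- the exceptional integers have a large radical -/
theorem E2_rad {κ : ℝ} (hκ : 0 < κ) (hκ1 : κ ≤ 1) {K₂ K : ℕ} (hK : K + 2 ≤ 2 * (2 * K₂)) (T C : ℕ) :
    ∃ N₀ : ℕ, ∀ N : ℕ, N₀ ≤ N → ∀ W₀ Z₀ : ℕ, (N : ℝ) ^ κ ≤ W₀ → Z₀ ≤ N → ∀ m : ℕ, (m : ℝ) ≤ Real.log N ^ C →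
    ∀ e ∈ E2 (E1 N K₂ K W₀ Z₀) m, Real.log N ^ T < (rad e : ℝ) := by
  classical
  obtain ⟨N₁, h1⟩ := cells hκ hκ1 (T + C) K (2 * K₂) hK
  obtain ⟨N₂, hN₂⟩ := Filter.eventually_atTop.1 (Pool.Agent.Y614.GJ.Core.ev_log 1 (s := 1) (by norm_num) 1)
  refine ⟨N₁ + N₂ + 1, fun N hN W₀ Z₀ hW₀ hZ₀ m hm e he => ?_⟩
  obtain ⟨hL1, -⟩ := hN₂ N (by omega)
  unfold E2 at he
  rw [mem_image] at he
  obtain ⟨⟨f, j⟩, hfj, rfl⟩ := he
  rw [mem_product, mem_range] at hfj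
  obtain ⟨hf, hj⟩ := hfj
  simp only at hf hj ⊢
  unfold E1 at hf
  rw [mem_filter, mem_Icc] at hf
  obtain ⟨⟨hf2, hfN⟩, ψ, hψ1, hψ2⟩ := hf
  haveI : NeZero f := ⟨by omega⟩
  have hjr : ((j + 1 : ℕ) : ℝ) ≤ Real.log N ^ C := le_trans (by exact_mod_cast hj) hm
  obtain ⟨g, hg⟩ : ∃ g, g = Nat.gcd f (j + 1) := ⟨_, rfl⟩
  rw [← hg]
  have hge : g ∣ f := by rw [hg]; exact Nat.gcd_dvd_left _ _
  have hgj : g ≤ j + 1 := by rw [hg]; exact Nat.gcd_le_right _ (Nat.succ_pos j)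
  have hg0 : 0 < g := Nat.pos_of_dvd_of_pos hge (by omega)
  by_contra hcon
  rw [not_lt] at hcon
  have hradf : (rad f : ℝ) ≤ Real.log N ^ (T + C) := by
    have k1 : rad f ≤ rad (f / g) * (j + 1) := by
      have k2 := rad_mul_le (f / g) g
      rw [Nat.div_mul_cancel hge] at k2
      exact k2.trans (Nat.mul_le_mul_left _ ((rad_le hg0.ne').trans hgj))
    calc (rad f : ℝ) ≤ (rad (f / g) : ℝ) * ((j + 1 : ℕ) : ℝ) := by exact_mod_cast k1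
      _ ≤ Real.log N ^ T * Real.log N ^ C := by gcongr
      _ = Real.log N ^ (T + C) := by rw [← pow_add]
  have hψne : ψ ≠ 1 := by
    rintro rfl
    have h2 : (1 : DirichletCharacter ℂ f).conductor = f := hψ1
    rw [DirichletCharacter.conductor_one] at h2
    omega
  have h2 := h1 N (by omega) f hfN hradf ψ hψne W₀ Z₀ hW₀ hZ₀
  unfold Bd at hψ2
  obtain ⟨i, -, hi⟩ := hψ2
  have h3 := h2 i
  have h4 : dl N K₂ = (Real.log N ^ (2 * K₂))⁻¹ := rfl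
  rw [h4] at hi
  linarith

end Pool.Agent.T9h57.LN
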