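import Pool.Agent.T9h57.LM.TK
import Pool.Agent.Helper112.Arith
import Pool.Agent.Y614.GJ.Core

/-!
# The function of Liouville on the integers coprime to a modulus
-/

set_option autoImplicit false

namespace Pool.Agent.T9h57.LN

open Finset
open Pool.Agent.T9h57.LM (lc lc_norm lc_mul)
open Pool.Agent.N403.QG (la sw_la)

lemma mob_cop (g n : ℕ) (hg : g ≠ 0) :
    ∑ e ∈ g.divisors, (if e ∣ n then ((ArithmeticFunction.moebius e : ℤ) : ℝ) else 0) =
      if n.Coprime g then 1 else 0 := by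
  rw [← sum_filter]
  have h1 : g.divisors.filter (fun e => e ∣ n) = (n.gcd g).divisors := by
    ext e
    rw [mem_filter, Nat.mem_divisors, Nat.mem_divisors, Nat.dvd_gcd_iff]
    have : n.gcd g ≠ 0 := Nat.gcd_ne_zero_right hg
    tauto
  have h2 : ∑ e ∈ (n.gcd g).divisors, ArithmeticFunction.moebius e =
      if n.gcd g = 1 then (1 : ℤ) else 0 := by
    rw [← ArithmeticFunction.coe_mul_zeta_apply, ArithmeticFunction.moebius_mul_coe_zeta,
      ArithmeticFunction.one_apply]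
  rw [h1]
  have h3 : ∑ e ∈ (n.gcd g).divisors, ((ArithmeticFunction.moebius e : ℤ) : ℝ) =
      ((∑ e ∈ (n.gcd g).divisors, ArithmeticFunction.moebius e : ℤ) : ℝ) := by push_cast; rfl
  rw [h3, h2]
  unfold Nat.Coprime
  split_ifs <;> simp

lemma multiples (K e : ℕ) (he : 1 ≤ e) (F : ℕ → ℂ) :
    ∑ n ∈ Icc 1 K, (if e ∣ n then F n else 0) = ∑ k ∈ Icc 1 (K / e), F (e * k) := by
  rw [← sum_filter]
  symm
  refine sum_bij (fun k _ => e * k) ?_ ?_ ?_ ?_
  · intro k hk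
    rw [mem_Icc, Nat.le_div_iff_mul_le he] at hk
    rw [mem_filter, mem_Icc]
    refine ⟨⟨Nat.mul_pos he hk.1, ?_⟩, ⟨k, rfl⟩⟩
    rw [mul_comm]; exact hk.2
  · intro a _ b _ h
    exact Nat.eq_of_mul_eq_mul_left he h
  · intro n hn
    rw [mem_filter, mem_Icc] at hn
    obtain ⟨⟨h1, h2⟩, k, hk⟩ := hn
    refine ⟨k, ?_, hk.symm⟩
    rw [mem_Icc, Nat.le_div_iff_mul_le he]
    constructor
    · by_contra h
      have : k = 0 := by omega
      rw [this] at hk; omega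
    · rw [mul_comm, ← hk]; exact h2
  · intro k _; rfl

open Classical in
lemma one_le_sum {r y : ℕ} [NeZero r] :
    ‖∑ n ∈ Icc 1 y, lc n * (1 : DirichletCharacter ℂ r) (n : ZMod r)‖ ≤
      ∑ e ∈ r.divisors, ‖∑ m ∈ Icc 1 (y / e), lc m‖ := by
  have h1 : ∑ n ∈ Icc 1 y, lc n * (1 : DirichletCharacter ℂ r) (n : ZMod r) =
      ∑ e ∈ r.divisors, ((ArithmeticFunction.moebius e : ℤ) : ℂ) * (lc e * ∑ m ∈ Icc 1 (y / e), lc m) := by
    have h2 : ∀ n ∈ Icc 1 y, lc n * (1 : DirichletCharacter ℂ r) (n : ZMod r) =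
        ∑ e ∈ r.divisors, ((ArithmeticFunction.moebius e : ℤ) : ℂ) * (if e ∣ n then lc n else 0) := by
      intro n _
      have h3 := mob_cop r n (NeZero.ne r)
      have h4 : (1 : DirichletCharacter ℂ r) (n : ZMod r) = ((if n.Coprime r then (1 : ℝ) else 0 : ℝ) : ℂ) := by
        by_cases h : n.Coprime r
        · rw [MulChar.one_apply ((ZMod.isUnit_iff_coprime _ _).2 h), if_pos h]
          norm_num
        · rw [MulChar.map_nonunit _ (fun h' => h ((ZMod.isUnit_iff_coprime _ _).1 h')), if_neg h]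
          norm_num
      rw [h4, ← h3]
      push_cast
      rw [mul_sum]
      refine sum_congr rfl fun e _ => ?_
      split_ifs
      · push_cast
        ring
      · simp
    rw [sum_congr rfl h2, sum_comm]
    refine sum_congr rfl fun e he => ?_
    rw [← mul_sum, multiples y e (Nat.pos_of_mem_divisors he) (fun n => lc n)]
    congr 1
    rw [mul_sum]
    refine sum_congr rfl fun k _ => ?_
    rw [lc_mul]
  rw [h1]
  refine (norm_sum_le _ _).trans (sum_le_sum fun e _ => ?_)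
  rw [norm_mul, norm_mul]
  have h2 : ‖((ArithmeticFunction.moebius e : ℤ) : ℂ)‖ ≤ 1 := by
    rw [Complex.norm_intCast]
    exact_mod_cast ArithmeticFunction.abs_moebius_le_one
  calc _ ≤ 1 * (1 * ‖∑ m ∈ Icc 1 (y / e), lc m‖) := by
        gcongr
        exact lc_norm e
    _ = _ := by ring

lemma A_one (M : ℕ) : Pool.Agent.Helper112.BLB.A M la 1 (1 : DirichletCharacter ℂ 1) = ∑ m ∈ Icc 1 M, lc m := by
  unfold Pool.Agent.Helper112.BLB.A
  refine sum_congr rfl fun m _ => ?_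
  have h : IsUnit (m : ZMod 1) := isUnit_of_subsingleton _
  rw [MulChar.one_apply h, mul_one]
  rfl

/-- the function of Liouville on the integers coprime to a modulus -/
theorem one_sum (U : ℕ) : ∃ N₀ : ℕ, ∀ N : ℕ, N₀ ≤ N → ∀ (r : ℕ) [NeZero r], (r : ℝ) ≤ (N : ℝ) ^ (4 : ℝ) →
    ∀ y : ℕ, y ≤ N → ‖∑ n ∈ Icc 1 y, lc n * (1 : DirichletCharacter ℂ r) (n : ZMod r)‖ ≤ N / Real.log N ^ U := by
  obtain ⟨Cd, hCd0, hCd⟩ := Pool.Agent.Helper112.divisor_bound (1 / 32) (by norm_num)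
  obtain ⟨N₂, hsw⟩ := sw_la (U + 2) 1
  obtain ⟨N₁, hN₁⟩ := Filter.eventually_atTop.1
    (Pool.Agent.Y614.GJ.Core.ev_log (U + 1) (s := 1 / 8) (by norm_num) (100 + 4 * N₂ + 4 * 4 ^ (U + 2) + 2 * Cd))
  refine ⟨N₁ + 1, fun N hN r _ hr y hy => ?_⟩
  obtain ⟨hL1, hLp⟩ := hN₁ N (by omega)
  have hN1 : 1 ≤ N := by omega
  have hN0 : (0 : ℝ) < N := by exact_mod_cast hN1
  have hNr1 : (1 : ℝ) ≤ N := by exact_mod_cast hN1
  obtain ⟨L, hL⟩ : ∃ L, L = Real.log (N : ℝ) := ⟨_, rfl⟩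
  rw [← hL] at hL1 hLp ⊢
  have hp1 : (0 : ℝ) < 4 ^ (U + 2) := by positivity
  have hN₂0 : (0 : ℝ) ≤ N₂ := Nat.cast_nonneg _
  have hL100 : 100 ≤ L := by linarith
  have hL0 : 0 < L := by linarith
  have hLo : 1 ≤ L := by linarith
  obtain ⟨s, hs⟩ : ∃ s, s = (N : ℝ) ^ (1 / 2 : ℝ) := ⟨_, rfl⟩
  have hss : s * s = N := by
    rw [hs, ← Real.rpow_add hN0]
    norm_num
  have hs0 : 0 < s := by rw [hs]; positivity
  have hls : Real.log s = L / 2 := by
    rw [hs, Real.log_rpow hN0, hL]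
    ring
  have hs2 : L ≤ s := by
    have h1 := Real.add_one_le_exp (L / 4)
    have h2 : Real.exp (L / 4) * Real.exp (L / 4) = s := by
      rw [← Real.exp_add, show L / 4 + L / 4 = Real.log s by rw [hls]; ring, Real.exp_log hs0]
    nlinarith
  refine one_le_sum.trans ?_
  have hterm : ∀ e ∈ r.divisors, ‖∑ m ∈ Icc 1 (y / e), lc m‖ ≤
      (if (e : ℝ) ≤ s then N * (4 ^ (U + 2) / L ^ (U + 2)) * (1 / e) else 0) + s := by
    intro e he
    have he0 : 0 < e := Nat.pos_of_mem_divisors he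
    have he0r : (0 : ℝ) < e := by exact_mod_cast he0
    split_ifs with hes
    · obtain ⟨N', hN'⟩ : ∃ N', N' = N / e := ⟨_, rfl⟩
      have g1 : (N : ℝ) / e < (N' : ℝ) + 1 := by
        have h7 : N < e * (N / e + 1) := Nat.lt_mul_div_succ N he0
        have h8 : (N : ℝ) < e * ((N' : ℝ) + 1) := by rw [hN']; exact_mod_cast h7
        rw [div_lt_iff₀ he0r]
        linarith
      have g2 : s ≤ (N : ℝ) / e := by
        rw [le_div_iff₀ he0r]
        nlinarith
      have g3 : s / 2 ≤ N' := by linarith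
      have g4 : L / 4 ≤ Real.log N' := by
        have h1 : L / 4 ≤ Real.log (s / 2) := by
          rw [Real.log_div hs0.ne' (by norm_num), hls]
          have := Real.log_two_lt_d9
          linarith
        exact h1.trans (Real.log_le_log (by positivity) g3)
      have hN'0 : (0 : ℝ) < N' := by linarith
      have g5 : N₂ ≤ N' := by
        have : (N₂ : ℝ) ≤ N' := by linarith
        exact_mod_cast this
      have g6 := hsw N' g5 1 le_rfl (by
        rw [pow_one, Nat.cast_one]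
        linarith) 1 (y / e) (by rw [hN']; exact Nat.div_le_div_right hy)
      rw [A_one] at g6
      have g7 : (N' : ℝ) ≤ N / e := by rw [hN']; exact Nat.cast_div_le
      calc ‖∑ m ∈ Icc 1 (y / e), lc m‖ ≤ N' / Real.log N' ^ (U + 2) := g6
        _ ≤ (N / e) / (L / 4) ^ (U + 2) := by gcongr
        _ = N * (4 ^ (U + 2) / L ^ (U + 2)) * (1 / e) := by
            rw [div_pow]
            field_simp
        _ ≤ _ := by linarith
    · rw [not_le] at hes
      rw [zero_add]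
      have h1 : ‖∑ m ∈ Icc 1 (y / e), lc m‖ ≤ ((y / e : ℕ) : ℝ) := by
        refine (norm_sum_le _ _).trans ?_
        calc ∑ m ∈ Icc 1 (y / e), ‖lc m‖ ≤ ∑ m ∈ Icc 1 (y / e), (1 : ℝ) := sum_le_sum fun m _ => lc_norm m
          _ = ((y / e : ℕ) : ℝ) := by rw [sum_const, Nat.card_Icc, nsmul_eq_mul, mul_one, Nat.add_sub_cancel]
      have h2 : ((y / e : ℕ) : ℝ) ≤ (N : ℝ) / e := by
        refine Nat.cast_div_le.trans ?_
        have : (y : ℝ) ≤ N := by exact_mod_cast hy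
        gcongr
      have h3 : (N : ℝ) / e ≤ s := by
        rw [div_le_iff₀ he0r]
        nlinarith
      linarith
  refine (sum_le_sum hterm).trans ?_
  rw [sum_add_distrib, sum_const, nsmul_eq_mul, ← sum_filter, ← mul_sum]
  have h1 : ∑ e ∈ r.divisors.filter (fun e : ℕ => (e : ℝ) ≤ s), (1 : ℝ) / e ≤ 2 * L := by
    have h2 : ∑ e ∈ r.divisors.filter (fun e : ℕ => (e : ℝ) ≤ s), (1 : ℝ) / e ≤ ∑ d ∈ Icc 1 N, (1 : ℝ) / d := by
      refine sum_le_sum_of_subset_of_nonneg ?_ fun _ _ _ => by positivity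
      intro d hd
      rw [mem_filter] at hd
      rw [mem_Icc]
      refine ⟨Nat.pos_of_mem_divisors hd.1, ?_⟩
      have h3 : (d : ℝ) ≤ N := by nlinarith
      exact_mod_cast h3
    have h3 := harmonic_le_one_add_log N
    rw [harmonic_eq_sum_Icc] at h3
    push_cast at h3
    rw [← hL] at h3
    have h4 : ∑ d ∈ Icc 1 N, (1 : ℝ) / d = ∑ i ∈ Icc 1 N, ((i : ℝ))⁻¹ :=
      sum_congr rfl fun d _ => one_div _
    linarith
  have h5 : (r.divisors.card : ℝ) ≤ Cd * (N : ℝ) ^ (1 / 8 : ℝ) := by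
    refine (hCd r (NeZero.pos r)).trans ?_
    have : (r : ℝ) ^ (1 / 32 : ℝ) ≤ (N : ℝ) ^ (1 / 8 : ℝ) := by
      calc (r : ℝ) ^ (1 / 32 : ℝ) ≤ ((N : ℝ) ^ (4 : ℝ)) ^ (1 / 32 : ℝ) := by gcongr
        _ = (N : ℝ) ^ (1 / 8 : ℝ) := by
            rw [← Real.rpow_mul hN0.le]
            norm_num
    gcongr
  have e1 : N * (4 ^ (U + 2) / L ^ (U + 2)) * ∑ e ∈ r.divisors.filter (fun e : ℕ => (e : ℝ) ≤ s), (1 : ℝ) / e ≤
      N / L ^ U / 2 := by
    calc N * (4 ^ (U + 2) / L ^ (U + 2)) * ∑ e ∈ r.divisors.filter (fun e : ℕ => (e : ℝ) ≤ s), (1 : ℝ) / e ≤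
        N * (4 ^ (U + 2) / L ^ (U + 2)) * (2 * L) := by gcongr
      _ = N / L ^ U * (2 * 4 ^ (U + 2) / L) := by
          rw [pow_add L U 2]
          field_simp
      _ ≤ N / L ^ U * (1 / 2) := by
          refine mul_le_mul_of_nonneg_left ?_ (by positivity)
          rw [div_le_div_iff₀ hL0 (by norm_num)]
          linarith
      _ = _ := by ring
  have e2 : (r.divisors.card : ℝ) * s ≤ N / L ^ U / 2 := by
    rw [div_div, le_div_iff₀ (by positivity)]
    have h6 : (N : ℝ) ^ (1 / 8 : ℝ) * (N : ℝ) ^ (1 / 8 : ℝ) ≤ s := by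
      rw [← Real.rpow_add hN0, hs]
      exact Real.rpow_le_rpow_of_exponent_le hNr1 (by norm_num)
    have h7 : 2 * Cd * L ^ U ≤ (N : ℝ) ^ (1 / 8 : ℝ) := by
      calc 2 * Cd * L ^ U ≤ L * L ^ U := by gcongr; linarith
        _ = L ^ (U + 1) := by ring
        _ ≤ _ := hLp
    calc (r.divisors.card : ℝ) * s * (L ^ U * 2) ≤ (Cd * (N : ℝ) ^ (1 / 8 : ℝ)) * s * (L ^ U * 2) := by gcongr
      _ = (2 * Cd * L ^ U) * (N : ℝ) ^ (1 / 8 : ℝ) * s := by ring
      _ ≤ (N : ℝ) ^ (1 / 8 : ℝ) * (N : ℝ) ^ (1 / 8 : ℝ) * s := by gcongr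
      _ ≤ s * s := by gcongr
      _ = N := hss
  linarith

end Pool.Agent.T9h57.LN
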