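import Pool.Agent.T9h57.LM.Core3
import Pool.Agent.T9h57.LN.Core2
import Pool.Agent.T9h57.LN.One
import Pool.Agent.T9h57.LN.BilH
import Pool.Agent.T9h57.LN.Few2

/-!
# The main part in residue classes: major arcs
-/

set_option autoImplicit false

namespace Pool.Agent.T9h57.LN

open Finset
open Pool.Agent.Y883.GJ
open Pool.Agent.H807R2.Dav (ee)
open Pool.Agent.T9h57.PK (rad rad_pos)
open Pool.Agent.T9h57.LM (lc lc_norm lc_mul fl shrink pa)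
open Pool.Agent.R460.GR (Bd dl)

/-- the principal character -/
theorem principal (A C : ℕ) : ∃ N₀ : ℕ, ∀ N : ℕ, N₀ ≤ N → ∀ d r' : ℕ, 0 < d →
    (d : ℝ) ≤ (N : ℝ) ^ (1 / 4 : ℝ) → ∀ [NeZero r'], (r' : ℝ) ≤ N → ∀ W Z q : ℕ,
    (Z : ℝ) ≤ (N : ℝ) ^ (1 / 8 : ℝ) → ∀ η : ℝ, |η| ≤ Real.log N ^ C / N →
    ‖cs r' (N / d) (Gw W Z q) (d * η) 1‖ ≤ ((N : ℝ) / d) / Real.log N ^ A := by
  obtain ⟨U, hU⟩ : ∃ U, U = A + C + 2 := ⟨_, rfl⟩
  obtain ⟨N₂, hsw⟩ := one_sum U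
  obtain ⟨N₁, hN₁⟩ := Filter.eventually_atTop.1
    (Pool.Agent.Y614.GJ.Core.ev_log 1 (s := 1 / 2) (by norm_num) (100 + 4 * N₂ + 16 * 4 ^ U))
  refine ⟨N₁ + 1, fun N hN d r' hd hdN _ hr'N W Z q hZ η hη => ?_⟩
  obtain ⟨hL1, -⟩ := hN₁ N (by omega)
  have hN1 : 1 ≤ N := by omega
  have hN0 : (0 : ℝ) < N := by exact_mod_cast hN1
  have hNr1 : (1 : ℝ) ≤ N := by exact_mod_cast hN1
  obtain ⟨L, hL⟩ : ∃ L, L = Real.log (N : ℝ) := ⟨_, rfl⟩
  rw [← hL] at hL1 hη ⊢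
  have hp2 : (0 : ℝ) < 4 ^ U := by positivity
  have hN₂0 : (0 : ℝ) ≤ N₂ := Nat.cast_nonneg _
  have hL100 : 100 ≤ L := by linarith
  have hL0 : 0 < L := by linarith
  have hLo : 1 ≤ L := by linarith
  have hd0 : (0 : ℝ) < d := by exact_mod_cast hd
  obtain ⟨f1, f2, f3, f4⟩ := fl hN1 hL hL100 hd hdN
  obtain ⟨N', hN'⟩ : ∃ N', N' = N / d := ⟨_, rfl⟩
  rw [← hN'] at f1 f2 f3 f4 ⊢
  have hx1 : 1 ≤ (N : ℝ) ^ (1 / 2 : ℝ) := Real.one_le_rpow hNr1 (by norm_num)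
  have hN'1 : 1 ≤ N' := by
    have : (0 : ℝ) < N' := by linarith
    exact_mod_cast this
  have hN'0 : (0 : ℝ) < N' := by exact_mod_cast hN'1
  have hdN' : (d : ℝ) * N' ≤ N := by
    have : d * N' ≤ N := by rw [hN']; exact Nat.mul_div_le N d
    exact_mod_cast this
  have hηN : |η| * N ≤ L ^ C := by rwa [le_div_iff₀ hN0] at hη
  -- one prime
  have hterm : ∀ m ∈ Icc 1 N', ‖∑ k ∈ Icc 1 (N' / m), pq W Z q m * lc k *
      ((1 : DirichletCharacter ℂ r') ((m * k : ℕ) : ZMod r') * ee ((m * k : ℕ) * (d * η)))‖ ≤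
      N' * (4 ^ U * 8 * L ^ C / L ^ U) * (1 / m) := by
    intro m hm
    rw [mem_Icc] at hm
    have hm0 : (0 : ℝ) < m := by exact_mod_cast hm.1
    have hR0 : 0 ≤ N' * (4 ^ U * 8 * L ^ C / L ^ U) * (1 / (m : ℝ)) := by positivity
    by_cases hpm : pq W Z q m = 0
    · rw [hpm]
      simp only [zero_mul, sum_const_zero, norm_zero]
      exact hR0
    have hmZ := (pq_supp hpm).2.2.1
    have hmZr : (m : ℝ) ≤ (N : ℝ) ^ (1 / 8 : ℝ) := le_trans (by exact_mod_cast hmZ) hZ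
    have e1 : ∑ k ∈ Icc 1 (N' / m), pq W Z q m * lc k *
        ((1 : DirichletCharacter ℂ r') ((m * k : ℕ) : ZMod r') * ee ((m * k : ℕ) * (d * η))) =
        pq W Z q m * (1 : DirichletCharacter ℂ r') (m : ZMod r') * cs r' (N' / m) lc (m * (d * η)) 1 := by
      unfold cs
      rw [mul_sum]
      refine sum_congr rfl fun k _ => ?_
      have e2 : ((m * k : ℕ) : ℝ) * (d * η) = (k : ℝ) * (m * (d * η)) := by push_cast; ring
      rw [e2, Nat.cast_mul, map_mul]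
      ring
    rw [e1, norm_mul, norm_mul]
    obtain ⟨N'', hN''⟩ : ∃ N'', N'' = N' / m := ⟨_, rfl⟩
    rw [← hN'']
    -- the size of `N''`
    obtain ⟨x, hx⟩ : ∃ x, x = (N : ℝ) ^ (1 / 4 : ℝ) := ⟨_, rfl⟩
    have hx1' : 1 ≤ x := by rw [hx]; exact Real.one_le_rpow hNr1 (by norm_num)
    have hlx : Real.log x = L / 4 := by
      rw [hx, Real.log_rpow hN0, hL]
      ring
    have g1 : 2 * x ≤ (N' : ℝ) / m := by
      rw [le_div_iff₀ hm0]
      calc 2 * x * m ≤ 2 * (N : ℝ) ^ (1 / 4 : ℝ) * (N : ℝ) ^ (1 / 8 : ℝ) := by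
            rw [hx]
            gcongr
        _ = 2 * (N : ℝ) ^ (3 / 8 : ℝ) := by
            rw [mul_assoc, ← Real.rpow_add hN0]
            norm_num
        _ ≤ 2 * (N : ℝ) ^ (1 / 2 : ℝ) := by
            gcongr 2 * ?_
            exact Real.rpow_le_rpow_of_exponent_le hNr1 (by norm_num)
        _ ≤ N' := f2
    have g2 : (N' : ℝ) / m < (N'' : ℝ) + 1 := by
      have h7 : N' < m * (N' / m + 1) := Nat.lt_mul_div_succ N' hm.1
      have h8 : (N' : ℝ) < m * ((N'' : ℝ) + 1) := by rw [hN'']; exact_mod_cast h7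
      rw [div_lt_iff₀ hm0]
      linarith
    have g3 : x ≤ N'' := by linarith
    have g4 : L / 4 ≤ Real.log N'' := by
      rw [← hlx]
      exact Real.log_le_log (by linarith) g3
    have hN''0 : (0 : ℝ) < N'' := by linarith
    have g5 : N₂ ≤ N'' := by
      have h1 := Real.add_one_le_exp (Real.log (N'' : ℝ))
      rw [Real.exp_log hN''0] at h1
      have : (N₂ : ℝ) ≤ N'' := by linarith
      exact_mod_cast this
    have g6 : (r' : ℝ) ≤ (N'' : ℝ) ^ (4 : ℝ) := by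
      refine hr'N.trans ?_
      calc (N : ℝ) = x ^ (4 : ℝ) := by
            rw [hx, ← Real.rpow_mul hN0.le]
            norm_num
        _ ≤ (N'' : ℝ) ^ (4 : ℝ) := by gcongr
    have g8 : ‖cs r' N'' lc (m * (d * η)) 1‖ ≤
        N'' / Real.log N'' ^ U * (1 + 7 * |(m : ℝ) * (d * η)| * N'') := by
      apply Pool.Agent.R460.GS.cs_abel le_rfl
      intro y' hy'
      exact hsw N'' g5 r' g6 y' hy'
    have g9 : |(m : ℝ) * (d * η)| * N'' ≤ L ^ C := by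
      rw [abs_mul, abs_mul, abs_of_nonneg hm0.le, abs_of_nonneg hd0.le]
      have h1 : (m : ℝ) * N'' ≤ N' := by
        have : m * N'' ≤ N' := by rw [hN'']; exact Nat.mul_div_le N' m
        exact_mod_cast this
      calc (m : ℝ) * (d * |η|) * N'' = |η| * (d * (m * N'')) := by ring
        _ ≤ |η| * (d * N') := by gcongr
        _ ≤ |η| * N := by gcongr
        _ ≤ L ^ C := hηN
    have h1 : ‖pq W Z q m‖ * ‖(1 : DirichletCharacter ℂ r') (m : ZMod r')‖ ≤ 1 :=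
      mul_le_one₀ (pq_norm W Z q m) (norm_nonneg _) (DirichletCharacter.norm_le_one _ _)
    have hLC1 : 1 ≤ L ^ C := one_le_pow₀ hLo
    calc ‖pq W Z q m‖ * ‖(1 : DirichletCharacter ℂ r') (m : ZMod r')‖ * ‖cs r' N'' lc (m * (d * η)) 1‖ ≤
        1 * (N'' / Real.log N'' ^ U * (1 + 7 * |(m : ℝ) * (d * η)| * N'')) :=
          mul_le_mul h1 g8 (norm_nonneg _) zero_le_one
      _ = N'' / Real.log N'' ^ U * (1 + 7 * (|(m : ℝ) * (d * η)| * N'')) := by ring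
      _ ≤ (N' / m) / (L / 4) ^ U * (1 + 7 * L ^ C) := by
          have : (N'' : ℝ) ≤ N' / m := by rw [hN'']; exact Nat.cast_div_le
          gcongr
      _ ≤ (N' / m) / (L / 4) ^ U * (8 * L ^ C) := by
          gcongr
          linarith
      _ = _ := by
          rw [div_pow]
          field_simp
  rw [cs_bil, norm_neg]
  refine (norm_sum_le _ _).trans ((sum_le_sum hterm).trans ?_)
  rw [← mul_sum]
  have hharm : ∑ m ∈ Icc 1 N', (1 : ℝ) / m ≤ 2 * L := by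
    have h3 := harmonic_le_one_add_log N'
    rw [harmonic_eq_sum_Icc] at h3
    push_cast at h3
    have h4 : ∑ d ∈ Icc 1 N', (1 : ℝ) / d = ∑ i ∈ Icc 1 N', ((i : ℝ))⁻¹ :=
      sum_congr rfl fun d _ => one_div _
    linarith
  have hNN : (N' : ℝ) ≤ N / d := by rw [hN']; exact Nat.cast_div_le
  calc N' * (4 ^ U * 8 * L ^ C / L ^ U) * ∑ m ∈ Icc 1 N', (1 : ℝ) / m ≤
      (N / d) * (4 ^ U * 8 * L ^ C / L ^ U) * (2 * L) := by gcongr
    _ = (N / d) / L ^ A * (16 * 4 ^ U / L) := by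
        rw [hU, show A + C + 2 = (A + C) + 2 by ring, pow_add L (A + C) 2, pow_add L A C]
        field_simp
        ring
    _ ≤ (N / d) / L ^ A * 1 := by
        refine mul_le_mul_of_nonneg_left ?_ (by positivity)
        rw [div_le_one hL0]
        linarith
    _ = _ := mul_one _

/-- small common divisors, major arcs -/
theorem major_small (A C : ℕ) : ∃ K' : ℕ, ∀ κ : ℝ, 0 < κ → ∃ N₀ : ℕ, ∀ N : ℕ, N₀ ≤ N →
    ∀ W₀ Z₀ : ℕ, (N : ℝ) ^ κ ≤ W₀ → Z₀ ≤ N →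
    ∀ d r' : ℕ, 0 < d → (d : ℝ) ≤ (N : ℝ) ^ (1 / 4 : ℝ) → ∀ [NeZero r'], (r' : ℝ) ≤ N →
    ∀ W Z q : ℕ, W₀ ≤ W → Z ≤ Z₀ → 1 ≤ q → q ≤ N → (∀ p ∈ PR W Z q, ¬ p ∣ r') →
    1 ≤ Z → (Z : ℝ) ≤ (N : ℝ) ^ (1 / 8 : ℝ) → 2 * (((d * r' : ℕ) : ℝ) * Z) ≤ N →
    (∀ χ : DirichletCharacter ℂ r', χ ≠ 1 →
      ¬ Bd N (K' + 5) (2 * (K' + 5) + K' + 3) (pa W₀ Z₀) χ.conductor χ.primitiveCharacter) →
    ∀ η : ℝ, |η| ≤ Real.log N ^ C / N →
    ∑ χ : DirichletCharacter ℂ r', ‖cs r' (N / d) (Gw W Z q) (d * η) χ‖ ^ 2 ≤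
      ((N : ℝ) / d) ^ 2 / Real.log N ^ A := by
  classical
  obtain ⟨K₂, K', N₂, h2⟩ := bilH (A + 2) (C + 1)
  refine ⟨K', fun κ hκ => ?_⟩
  obtain ⟨N₃, h3⟩ := principal (A + 1) C
  obtain ⟨N₄, h4⟩ := cell_transfer hκ K'
  obtain ⟨N₁, hN₁⟩ := Filter.eventually_atTop.1
    (Pool.Agent.Y614.GJ.Core.ev_log 1 (s := 1 / 2) (by norm_num)
      (100 + 2 * N₂ + 2 ^ (C + 1) + 2 * 2 ^ (A + 2)))
  refine ⟨N₁ + N₃ + N₄ + 1, fun N hN W₀ Z₀ hW₀ hZ₀ d r' hd hdN _ hr'N W Z q hW hZZ₀ hq1 hqN hp hZ1 hZ hZr hgood η hη => ?_⟩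
  obtain ⟨hL1, -⟩ := hN₁ N (by omega)
  have hprin := h3 N (by omega) d r' hd hdN hr'N W Z q hZ η hη
  have hct := h4 N (by omega) W₀ Z₀ hW₀ hZ₀ r'
  have hN1 : 1 ≤ N := by omega
  have hN0 : (0 : ℝ) < N := by exact_mod_cast hN1
  have hNr1 : (1 : ℝ) ≤ N := by exact_mod_cast hN1
  obtain ⟨L, hL⟩ : ∃ L, L = Real.log (N : ℝ) := ⟨_, rfl⟩
  rw [← hL] at hL1 hη hprin hct ⊢
  have hp2 : (0 : ℝ) < 2 ^ (C + 1) := by positivity
  have hp3 : (0 : ℝ) < 2 ^ (A + 2) := by positivity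
  have hN₂0 : (0 : ℝ) ≤ N₂ := Nat.cast_nonneg _
  have hL100 : 100 ≤ L := by linarith
  have hL0 : 0 < L := by linarith
  have hLo : 1 ≤ L := by linarith
  have hd0 : (0 : ℝ) < d := by exact_mod_cast hd
  obtain ⟨f1, f2, f3, f4⟩ := fl hN1 hL hL100 hd hdN
  obtain ⟨N', hN'⟩ : ∃ N', N' = N / d := ⟨_, rfl⟩
  rw [← hN'] at f1 f2 f3 f4 hprin ⊢
  obtain ⟨L', hL'⟩ : ∃ L', L' = Real.log (N' : ℝ) := ⟨_, rfl⟩
  rw [← hL'] at f3 f4
  have hx1 : 1 ≤ (N : ℝ) ^ (1 / 2 : ℝ) := Real.one_le_rpow hNr1 (by norm_num)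
  have hN'1 : 1 ≤ N' := by
    have : (0 : ℝ) < N' := by linarith
    exact_mod_cast this
  have hN'0 : (0 : ℝ) < N' := by exact_mod_cast hN'1
  have hdN' : (d : ℝ) * N' ≤ N := by
    have : d * N' ≤ N := by rw [hN']; exact Nat.mul_div_le N d
    exact_mod_cast this
  have hN'N : (N' : ℝ) ≤ N := by
    have : N' ≤ N := by rw [hN']; exact Nat.div_le_self _ _
    exact_mod_cast this
  have hNN : (N' : ℝ) ≤ N / d := by rw [hN']; exact Nat.cast_div_le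
  have hpw : ∀ t : ℕ, (2 : ℝ) ^ (t + 1) ≤ L → L ^ t ≤ L' ^ (t + 1) := by
    intro t ht
    have ht0 : (0 : ℝ) < 2 ^ (t + 1) := by positivity
    calc L ^ t = L ^ t * 1 := (mul_one _).symm
      _ ≤ L ^ t * (L / 2 ^ (t + 1)) := by
          gcongr
          rw [one_le_div ht0]
          exact ht
      _ = (L / 2) ^ (t + 1) := by
          rw [div_pow, pow_succ L t]
          ring
      _ ≤ _ := by gcongr
  have g1 : N₂ ≤ N' := by
    have h1 := Real.add_one_le_exp (Real.log (N' : ℝ))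
    rw [Real.exp_log hN'0, ← hL'] at h1
    have : (N₂ : ℝ) ≤ N' := by linarith
    exact_mod_cast this
  have g4 : Z * Z ≤ N' := by
    have : (Z : ℝ) * Z ≤ N' := by
      calc (Z : ℝ) * Z ≤ (N : ℝ) ^ (1 / 8 : ℝ) * (N : ℝ) ^ (1 / 8 : ℝ) := by gcongr
        _ = (N : ℝ) ^ (1 / 4 : ℝ) := by
            rw [← Real.rpow_add hN0]
            norm_num
        _ ≤ (N : ℝ) ^ (1 / 2 : ℝ) := Real.rpow_le_rpow_of_exponent_le hNr1 (by norm_num)
        _ ≤ N' := by linarith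
    exact_mod_cast this
  have g5 : r' * Z ≤ N' := by
    have h1 : (r' : ℝ) * Z ≤ N' := by
      have h2 : 2 * ((r' : ℝ) * Z) ≤ N / d := by
        rw [le_div_iff₀ hd0]
        push_cast at hZr
        linarith
      linarith
    exact_mod_cast h1
  have g6 : ∀ m ∈ Icc 1 N', ‖lc m‖ ≤ Real.log N' * (m.divisors.card : ℝ) := by
    intro m hm
    rw [mem_Icc] at hm
    have a2 : (1 : ℝ) ≤ (m.divisors.card : ℝ) := by
      exact_mod_cast (Finset.card_pos.2 ⟨1, Nat.mem_divisors.2 ⟨one_dvd _, by omega⟩⟩ : 0 < m.divisors.card)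
    have a1 := lc_norm m
    rw [← hL']
    nlinarith
  have g7 : |(d : ℝ) * η| ≤ Real.log N' ^ (C + 1) / N' := by
    rw [← hL', abs_mul, abs_of_nonneg hd0.le, le_div_iff₀ hN'0]
    rw [le_div_iff₀ hN0] at hη
    calc (d : ℝ) * |η| * N' = |η| * (d * N') := by ring
      _ ≤ |η| * N := by gcongr
      _ ≤ L ^ C := hη
      _ ≤ _ := hpw C (by linarith)
  have hL'0 : 0 < L' := by linarith
  have hL'1 : 1 ≤ L' := by linarith
  have hb := h2 N' g1 r' Z hZ1 g4 g5 (pq W Z q) (pq_norm W Z q) (fun m hm => (pq_supp hm).2.2.1) lc g6 (d * η) g7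
    (univ.erase 1) (by
      intro χ hχ i
      refine hct χ (hgood χ (ne_of_mem_erase hχ)) W Z q hW hZZ₀ hq1 hqN hp _ _ ?_ ?_ ?_ ?_ i
      · rw [← hL']
        positivity
      · rw [← hL']
        exact inv_le_one_of_one_le₀ (one_le_pow₀ hL'1)
      · rw [← hL']
        exact hL'0
      · rw [← hL']
        exact f4)
  rw [← cs_bil_sum, ← hL'] at hb
  rw [← add_sum_erase univ (fun χ => ‖cs r' N' (Gw W Z q) (d * η) χ‖ ^ 2) (mem_univ 1)]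
  have e1 : ‖cs r' N' (Gw W Z q) (d * η) 1‖ ^ 2 ≤ ((N : ℝ) / d) ^ 2 / L ^ A / 2 := by
    calc ‖cs r' N' (Gw W Z q) (d * η) 1‖ ^ 2 ≤ ((N : ℝ) / d / L ^ (A + 1)) ^ 2 := by gcongr
      _ = ((N : ℝ) / d) ^ 2 / L ^ A * (1 / L ^ (A + 2)) := by
          rw [div_pow _ (L ^ (A + 1)), ← pow_mul, show (A + 1) * 2 = A + (A + 2) by ring, pow_add L A (A + 2)]
          field_simp
      _ ≤ ((N : ℝ) / d) ^ 2 / L ^ A * (1 / 2) := by
          have h1 : (2 : ℝ) ≤ L ^ (A + 2) := by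
            calc (2 : ℝ) ≤ L := by linarith
              _ = L ^ 1 := (pow_one L).symm
              _ ≤ L ^ (A + 2) := pow_le_pow_right₀ hLo (by omega)
          gcongr
      _ = _ := by ring
  have e2 : ∑ χ ∈ univ.erase 1, ‖cs r' N' (Gw W Z q) (d * η) χ‖ ^ 2 ≤ ((N : ℝ) / d) ^ 2 / L ^ A / 2 := by
    calc ∑ χ ∈ univ.erase 1, ‖cs r' N' (Gw W Z q) (d * η) χ‖ ^ 2 ≤ (N' : ℝ) ^ 2 / L' ^ (A + 2) := hb
      _ ≤ ((N : ℝ) / d) ^ 2 / (L / 2) ^ (A + 2) := by gcongr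
      _ = ((N : ℝ) / d) ^ 2 / L ^ A * (2 ^ (A + 2) / L ^ 2) := by
          rw [div_pow L 2 (A + 2), pow_add L A 2]
          field_simp
      _ ≤ ((N : ℝ) / d) ^ 2 / L ^ A * (1 / 2) := by
          refine mul_le_mul_of_nonneg_left ?_ (by positivity)
          rw [div_le_div_iff₀ (by positivity) (by norm_num)]
          nlinarith
      _ = _ := by ring
  linarith

end Pool.Agent.T9h57.LN
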