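import Pool.Agent.T9h57.LN.Core3

/-!
# The main part in all residue classes
-/

set_option autoImplicit false

namespace Pool.Agent.T9h57.LN

open Finset
open Pool.Agent.Y883.GJ
open Pool.Agent.H807R2.Dav (ee)
open Pool.Agent.T9h57.PK (rad rad_pos rad_mul_le rad_le)
open Pool.Agent.T9h57.LM (lc lc_norm lc_mul fl shrink pa refine_sum)
open Pool.Agent.R460.GR (Bd dl)

/-- the main part in all residue classes -/
theorem core_G {κ : ℝ} (hκ : 0 < κ) (hκ1 : κ ≤ 1) {ρ : ℝ} (hρ : 0 < ρ) (hρ1 : ρ ≤ 1) (A : ℕ) :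
    ∃ c : ℕ, ∀ T : ℕ, ∃ N₀ : ℕ, ∀ N : ℕ, N₀ ≤ N → ∃ D : Finset ℕ, (D.card : ℝ) ≤ Real.log N ^ c ∧
    (∀ e ∈ D, Real.log N ^ T < (rad e : ℝ)) ∧
    ∀ (q : ℕ) [NeZero q], (q : ℝ) ≤ (N : ℝ) ^ (1 - ρ) → (∀ e ∈ D, ¬ e ∣ q) →
    ∀ W Z : ℕ, ⌈(N : ℝ) ^ κ⌉₊ ≤ W → 1 ≤ Z → (Z : ℝ) ≤ (N : ℝ) ^ (ρ / 8) →
    ∀ β : ℝ, ∑ l : ZMod q, ‖cl q N (Gw W Z q) β l‖ ^ 2 ≤ (N : ℝ) ^ 2 / (q * Real.log N ^ A) := by
  classical
  obtain ⟨C, N₂, h2⟩ := minor_small (A + 4)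
  obtain ⟨K', h3'⟩ := major_small (A + 4) (C + 1)
  obtain ⟨N₃, h3⟩ := h3' κ hκ
  obtain ⟨N₄, h4⟩ := gsum A
  obtain ⟨C₃, N₆, h6⟩ := E1_card (K' + 5) (2 * (K' + 5) + K' + 3) hκ
  obtain ⟨N₁, hN₁⟩ := Filter.eventually_atTop.1
    (Pool.Agent.Y614.GJ.Core.ev_log (C + 1) (s := ρ / 4) (by positivity) 100)
  obtain ⟨N₅, hN₅⟩ := Filter.eventually_atTop.1
    (Pool.Agent.Y614.GJ.Core.ev_log C (s := κ) hκ 1)
  refine ⟨C₃ + C, fun T => ?_⟩
  obtain ⟨N₇, h7⟩ := E2_rad hκ hκ1 (K₂ := K' + 5) (K := 2 * (K' + 5) + K' + 3) (by omega) T C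
  refine ⟨N₁ + N₂ + N₃ + N₄ + N₅ + N₆ + N₇ + 1, fun N hN => ?_⟩
  obtain ⟨hL1, hLp⟩ := hN₁ N (by omega)
  obtain ⟨-, hLk⟩ := hN₅ N (by omega)
  have hmin := h2 N (by omega)
  have hmaj := h3 N (by omega)
  have hgs := h4 N (by omega)
  have hN1 : 1 ≤ N := by omega
  have hN0 : (0 : ℝ) < N := by exact_mod_cast hN1
  have hNr1 : (1 : ℝ) ≤ N := by exact_mod_cast hN1
  obtain ⟨W₀, hW₀⟩ : ∃ W₀, W₀ = ⌈(N : ℝ) ^ κ⌉₊ := ⟨_, rfl⟩
  obtain ⟨Z₀, hZ₀⟩ : ∃ Z₀, Z₀ = ⌊(N : ℝ) ^ (1 / 8 : ℝ)⌋₊ := ⟨_, rfl⟩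
  rw [← hW₀]
  have hW₀r : (N : ℝ) ^ κ ≤ W₀ := by rw [hW₀]; exact Nat.le_ceil _
  have hZ₀r : (Z₀ : ℝ) ≤ (N : ℝ) ^ (1 / 8 : ℝ) := by rw [hZ₀]; exact Nat.floor_le (by positivity)
  have hZ₀h : (Z₀ : ℝ) ≤ (N : ℝ) ^ (1 / 2 : ℝ) :=
    hZ₀r.trans (Real.rpow_le_rpow_of_exponent_le hNr1 (by norm_num))
  have hZ₀N : Z₀ ≤ N := by
    have : (Z₀ : ℝ) ≤ N := by
      calc (Z₀ : ℝ) ≤ (N : ℝ) ^ (1 / 2 : ℝ) := hZ₀h
        _ ≤ (N : ℝ) ^ (1 : ℝ) := Real.rpow_le_rpow_of_exponent_le hNr1 (by norm_num)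
        _ = N := Real.rpow_one _
    exact_mod_cast this
  have hcard := h6 N (by omega) W₀ Z₀ hW₀r hZ₀h
  have hradd := h7 N (by omega) W₀ Z₀ hW₀r hZ₀N
  have hmaj := hmaj W₀ Z₀ hW₀r hZ₀N
  obtain ⟨L, hL⟩ : ∃ L, L = Real.log (N : ℝ) := ⟨_, rfl⟩
  rw [← hL] at hL1 hLp hLk hmin hmaj hgs hcard hradd ⊢
  have hL0 : 0 < L := by linarith
  have hLo : 1 ≤ L := by linarith
  obtain ⟨m, hm⟩ : ∃ m, m = ⌊L ^ C⌋₊ := ⟨_, rfl⟩
  have hmr : (m : ℝ) ≤ L ^ C := by rw [hm]; exact Nat.floor_le (by positivity)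
  obtain ⟨E, hE⟩ : ∃ E, E = E1 N (K' + 5) (2 * (K' + 5) + K' + 3) W₀ Z₀ := ⟨_, rfl⟩
  rw [← hE] at hcard hradd
  refine ⟨E2 E m, ?_, hradd m hmr, fun q _ hq hqD W Z hW hZ1 hZ β => ?_⟩
  · have h8 : (((E2 E m).card : ℕ) : ℝ) ≤ (E.card : ℝ) * m := by exact_mod_cast E2_card E m
    refine h8.trans ?_
    rw [pow_add]
    gcongr
  have hWr : (N : ℝ) ^ κ ≤ W := hW₀r.trans (by exact_mod_cast hW)
  have hq0 : (0 : ℝ) < q := by exact_mod_cast NeZero.pos q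
  have hLC : L ^ C ≤ L ^ (C + 1) := pow_le_pow_right₀ hLo (by omega)
  have hLC0 : 1 ≤ L ^ C := one_le_pow₀ hLo
  -- sizes
  have s1 : 2 * ((L ^ (C + 1) * q) * Z) ≤ N := by
    calc 2 * ((L ^ (C + 1) * q) * Z) ≤ L ^ (C + 1) * ((L ^ (C + 1) * q) * Z) := by
          gcongr
          calc (2 : ℝ) ≤ L := by linarith
            _ = L ^ 1 := (pow_one L).symm
            _ ≤ L ^ (C + 1) := pow_le_pow_right₀ hLo (by omega)
      _ ≤ (N : ℝ) ^ (ρ / 4) * (((N : ℝ) ^ (ρ / 4) * (N : ℝ) ^ (1 - ρ)) * (N : ℝ) ^ (ρ / 8)) := by gcongr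
      _ = (N : ℝ) ^ (ρ / 4 + (ρ / 4 + (1 - ρ) + ρ / 8)) := by
          rw [Real.rpow_add hN0, Real.rpow_add hN0, Real.rpow_add hN0]
      _ ≤ (N : ℝ) ^ (1 : ℝ) := Real.rpow_le_rpow_of_exponent_le hNr1 (by linarith)
      _ = N := Real.rpow_one _
  have hZr : (1 : ℝ) ≤ Z := by exact_mod_cast hZ1
  have s2 : 2 * (L ^ (C + 1) * q) ≤ N := by
    refine le_trans ?_ s1
    have : 0 ≤ L ^ (C + 1) * (q : ℝ) := by positivity
    nlinarith
  have hLW : L ^ C ≤ W := hLk.trans hWr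
  have hW1 : 1 ≤ W := by
    have : (1 : ℝ) ≤ W := hLC0.trans hLW
    exact_mod_cast this
  have hqp : ∀ p ∈ PR W Z q, ¬ p ∣ q := fun p hp => (PR_mem.1 hp).2.2
  have hqN : q ≤ N := by
    have h8 : (q : ℝ) ≤ N := by
      calc (q : ℝ) ≤ (N : ℝ) ^ (1 - ρ) := hq
        _ ≤ (N : ℝ) ^ (1 : ℝ) := Real.rpow_le_rpow_of_exponent_le hNr1 (by linarith)
        _ = N := Real.rpow_one _
    exact_mod_cast h8
  have hZ8 : (Z : ℝ) ≤ (N : ℝ) ^ (1 / 8 : ℝ) :=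
    hZ.trans (Real.rpow_le_rpow_of_exponent_le hNr1 (by linarith))
  have hZZ₀ : Z ≤ Z₀ := by
    rw [hZ₀]
    exact Nat.le_floor hZ8
  obtain ⟨n, hn⟩ : ∃ n, n = ⌊(N : ℝ) / (q * L ^ (C + 1))⌋₊ := ⟨_, rfl⟩
  have hqL : q * L ^ (C + 1) ≤ N := by
    have : 0 ≤ L ^ (C + 1) * (q : ℝ) := by positivity
    linarith
  have hn0 : 0 < n := by
    rw [hn, Nat.floor_pos, le_div_iff₀ (by positivity), one_mul]
    exact hqL
  have hn1 : (n : ℝ) ≤ (N : ℝ) / (q * L ^ (C + 1)) := by rw [hn]; exact Nat.floor_le (by positivity)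
  have hn2 : (N : ℝ) / (q * L ^ (C + 1)) < n + 1 := by rw [hn]; exact Nat.lt_floor_add_one _
  obtain ⟨j, h, hj, hcop, hx⟩ := Pool.Agent.Y614.GJ.Core.dirich ((q : ℝ) * β) hn0
  obtain ⟨k, hk⟩ : ∃ k, k = j + 1 := ⟨_, rfl⟩
  rw [← hk] at hj hcop hx
  have hk1 : 1 ≤ k := by omega
  have hkn : (k : ℝ) ≤ n := by exact_mod_cast hj
  have hk0 : (0 : ℝ) < k := by exact_mod_cast hk1
  have hk1r : (1 : ℝ) ≤ k := by exact_mod_cast hk1
  by_cases hkC : L ^ C ≤ (k : ℝ)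
  · -- minor arcs
    apply hgs q hqN W Z q hqp β
    intro d r' hd0 hdD _ hr
    refine hmin d r' hd0 hdD W Z q k h β hLW hW1 ?_ ?_ hkC hk1 ?_ hcop ?_
    · refine hZ.trans (Real.rpow_le_rpow_of_exponent_le hNr1 (by linarith))
    · rw [← hr]
      have : 0 ≤ L ^ (C + 1) * (q : ℝ) * Z := by positivity
      calc (q : ℝ) * Z * L ^ (C + 1) = (L ^ (C + 1) * q) * Z := by ring
        _ ≤ N := by linarith
    · rw [← hr]
      have := (le_div_iff₀ (by positivity)).1 (hkn.trans hn1)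
      linarith
    · rw [← hr]
      refine hx.trans ?_
      rw [sq]
      apply one_div_le_one_div_of_le (by positivity)
      apply mul_le_mul_of_nonneg_right _ hk0.le
      linarith
  · -- major arcs
    push Not at hkC
    haveI : NeZero (k * q) := ⟨Nat.mul_ne_zero (by omega) (NeZero.ne q)⟩
    obtain ⟨η, hη⟩ : ∃ η : ℝ, η = β - h / ((k * q : ℕ) : ℝ) := ⟨_, rfl⟩
    have hβη : β = h / ((k * q : ℕ) : ℝ) + η := by rw [hη]; ring
    have hηb : |η| ≤ L ^ (C + 1) / N := by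
      have e1 : η = ((q : ℝ) * β - h / k) / q := by
        rw [hη]
        push_cast
        field_simp
      rw [e1, abs_div, abs_of_pos hq0, div_le_iff₀ hq0]
      refine hx.trans ?_
      rw [div_le_iff₀ (by positivity)]
      have e2 : (N : ℝ) < (n + 1) * (q * L ^ (C + 1)) := by rwa [div_lt_iff₀ (by positivity)] at hn2
      have e3 : (N : ℝ) ≤ (n + 1) * (q * L ^ (C + 1)) * k := by
        have : 0 ≤ ((n : ℝ) + 1) * (q * L ^ (C + 1)) := by positivity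
        nlinarith
      calc (1 : ℝ) = (1 / N) * N := by field_simp
        _ ≤ (1 / N) * ((n + 1) * (q * L ^ (C + 1)) * k) := by gcongr
        _ = _ := by ring
    have hl := fun l => (Pool.Agent.Y708.GJ.lift q k N (Gw W Z q) (Gw W Z q) h β η hβη).2 l
    refine (refine_sum (k := k) (Gw W Z q) β).trans ?_
    have e1 : ∑ l' : ZMod (k * q), ‖cl (k * q) N (Gw W Z q) β l'‖ ^ 2 =
        ∑ l' : ZMod (k * q), ‖cl (k * q) N (Gw W Z q) η l'‖ ^ 2 := by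
      refine sum_congr rfl fun l' _ => ?_
      rw [hl l']
    rw [e1]
    have hkq : ((k * q : ℕ) : ℝ) ≤ L ^ (C + 1) * q := by
      push_cast
      gcongr
      linarith
    have hkqN : k * q ≤ N := by
      have : ((k * q : ℕ) : ℝ) ≤ N := by
        have : 0 ≤ L ^ (C + 1) * (q : ℝ) := by positivity
        linarith
      exact_mod_cast this
    have hkp : ∀ p ∈ PR W Z q, ¬ p ∣ k * q := by
      intro p hp hpq
      rw [PR_mem] at hp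
      rcases (Nat.Prime.dvd_mul hp.2.1).1 hpq with h1 | h1
      · have h2 : (p : ℝ) ≤ W := le_trans (by exact_mod_cast Nat.le_of_dvd (by omega) h1) (hkC.le.trans hLW)
        have h3 : p ≤ W := by exact_mod_cast h2
        omega
      · exact hp.2.2 h1
    have e2 := hgs (k * q) hkqN W Z q hkp η (by
      intro d r' hd0 hdD _ hr
      have hr'd : r' ∣ k * q := ⟨d, by rw [hr, mul_comm]⟩
      have hr'N : r' ≤ N := (Nat.le_of_dvd (NeZero.pos (k * q)) hr'd).trans hkqN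
      refine hmaj d r' hd0 hdD (by exact_mod_cast hr'N) W Z q hW hZZ₀ (NeZero.pos q) hqN
        (fun p hp hpr => hkp p hp (hpr.trans hr'd)) hZ1 hZ8 ?_ ?_ η hηb
      · rw [← hr]
        calc 2 * (((k * q : ℕ) : ℝ) * Z) ≤ 2 * ((L ^ (C + 1) * q) * Z) := by gcongr
          _ ≤ N := s1
      · intro χ hχ hbad
        have hcr : χ.conductor ∣ r' := χ.conductor_dvd_level
        have hc0 : χ.conductor ≠ 0 := fun h => by
          rw [h, zero_dvd_iff] at hcr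
          exact NeZero.ne r' hcr
        have hc1 : χ.conductor ≠ 1 := fun h => hχ (DirichletCharacter.eq_one_iff_conductor_eq_one.2 h)
        have hmem : χ.conductor ∈ E := by
          rw [hE]
          unfold E1
          rw [mem_filter, mem_Icc]
          exact ⟨⟨by omega, (Nat.le_of_dvd (NeZero.pos r') hcr).trans hr'N⟩, χ.primitiveCharacter,
            DirichletCharacter.primitiveCharacter_isPrimitive χ, hbad⟩
        refine E2_reg (j := j) hqD ?_ ?_ hmem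
        · rw [hm, ← hk]
          exact Nat.le_floor hkC.le
        · rw [← hk]
          exact hcr.trans hr'd)
    calc (k : ℝ) * ∑ l' : ZMod (k * q), ‖cl (k * q) N (Gw W Z q) η l'‖ ^ 2 ≤
        k * ((N : ℝ) ^ 2 / (((k * q : ℕ) : ℝ) * L ^ A)) := by gcongr
      _ = (N : ℝ) ^ 2 / (q * L ^ A) := by
          push_cast
          field_simp

end Pool.Agent.T9h57.LN
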