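import Pool.Agent.T9h57.LN.Core4

/-!
# The function of Liouville with additive twists in all residue classes
-/

set_option autoImplicit false

namespace Pool.Agent.T9h57.LN

open Finset
open Pool.Agent.Y883.GJ
open Pool.Agent.H807R2.Dav (ee)
open Pool.Agent.T9h57.PK (rad)
open Pool.Agent.T9h57.LM (lc lc_norm lc_mul)

lemma cl_split {W Z q N : ℕ} {E : ℝ} (hE : E ≠ 0) (β : ℝ) (l : ZMod q) :
    cl q N lc β l = cl q N (fun n => ((1 - om W Z q n / E : ℝ) : ℂ) * lc n) β l +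
      ((1 / E : ℝ) : ℂ) * cl q N (Gw W Z q) β l := by
  unfold cl
  rw [mul_sum, ← sum_add_distrib]
  refine sum_congr rfl fun n _ => ?_
  unfold Gw
  have hE' : (E : ℂ) ≠ 0 := by exact_mod_cast hE
  push_cast
  field_simp
  ring

/-- the function of Liouville in the classes modulo `q`, uniformly for all additive twists -/
theorem core_la {ε : ℝ} (hε : 0 < ε) {ρ : ℝ} (hρ : 0 < ρ) :
    ∃ c : ℕ, ∀ T : ℕ, ∃ N₀ : ℕ, ∀ N : ℕ, N₀ ≤ N → ∃ D : Finset ℕ, (D.card : ℝ) ≤ Real.log N ^ c ∧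
    (∀ e ∈ D, Real.log N ^ T < (rad e : ℝ)) ∧
    ∀ (q : ℕ) [NeZero q], (q : ℝ) ≤ (N : ℝ) ^ (1 - ρ) → (∀ e ∈ D, ¬ e ∣ q) → ∀ β : ℝ,
      ∑ l : ZMod q, ‖cl q N lc β l‖ ^ 2 ≤ ε * (N : ℝ) ^ 2 / q := by
  -- reduce to `ρ ≤ 1`
  obtain ⟨ρ', hρ'⟩ : ∃ ρ', ρ' = min ρ 1 := ⟨_, rfl⟩
  have hρ0 : 0 < ρ' := by rw [hρ']; exact lt_min hρ one_pos
  have hρ1 : ρ' ≤ 1 := by rw [hρ']; exact min_le_right _ _
  have hρρ : ρ' ≤ ρ := by rw [hρ']; exact min_le_left _ _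
  obtain ⟨E0, hE0⟩ : ∃ E0 : ℝ, E0 = 24 / ε + 1 := ⟨_, rfl⟩
  have hE01 : 1 ≤ E0 := by
    have : 0 < 24 / ε := by positivity
    linarith
  obtain ⟨κ₂, hκ₂⟩ : ∃ κ₂, κ₂ = ρ' / 8 := ⟨_, rfl⟩
  obtain ⟨κ₁, hκ₁⟩ : ∃ κ₁, κ₁ = κ₂ / Real.exp (E0 + 2) := ⟨_, rfl⟩
  have hexp : 1 < Real.exp (E0 + 2) := Real.one_lt_exp_iff.2 (by linarith)
  have hκ20 : 0 < κ₂ := by rw [hκ₂]; positivity
  have hκ10 : 0 < κ₁ := by rw [hκ₁]; positivity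
  have hκ12 : κ₁ < κ₂ := by
    rw [hκ₁]
    exact div_lt_self hκ20 hexp
  have hr : Real.exp (E0 + 2) * κ₁ ≤ κ₂ := by
    rw [hκ₁]
    field_simp
    exact le_rfl
  obtain ⟨N₁, h1⟩ := EE_bigq E0 hκ10 hκ12 hr
  obtain ⟨c, h2'⟩ := core_G (κ := κ₁ / 2) (by positivity) (by linarith) hρ0 hρ1 1
  refine ⟨c, fun T => ?_⟩
  obtain ⟨N₂, h2⟩ := h2' T
  obtain ⟨N₃, h3⟩ := Filter.eventually_atTop.1
    (Pool.Agent.Y614.GJ.Core.ev_log 1 (s := κ₁ / 2) (by positivity) (4 / ε + 2))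
  refine ⟨N₁ + N₂ + N₃ + 1, fun N hN => ?_⟩
  obtain ⟨D, hD1, hD2, hD3⟩ := h2 N (by omega)
  refine ⟨D, hD1, hD2, fun q _ hq hqD β => ?_⟩
  obtain ⟨hL1, hLk⟩ := h3 N (by omega)
  have hN1 : 1 ≤ N := by omega
  have hN0 : (0 : ℝ) < N := by exact_mod_cast hN1
  have hNr1 : (1 : ℝ) ≤ N := by exact_mod_cast hN1
  have hq' : (q : ℝ) ≤ (N : ℝ) ^ (1 - ρ') :=
    hq.trans (Real.rpow_le_rpow_of_exponent_le hNr1 (by linarith))
  obtain ⟨W, hW⟩ : ∃ W, W = ⌊(N : ℝ) ^ κ₁⌋₊ := ⟨_, rfl⟩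
  obtain ⟨Z, hZ⟩ : ∃ Z, Z = ⌊(N : ℝ) ^ κ₂⌋₊ := ⟨_, rfl⟩
  have hqN : (q : ℝ) ≤ N := by
    calc (q : ℝ) ≤ (N : ℝ) ^ (1 - ρ') := hq'
      _ ≤ (N : ℝ) ^ (1 : ℝ) := Real.rpow_le_rpow_of_exponent_le hNr1 (by linarith)
      _ = N := Real.rpow_one _
  have hEbig := h1 N (by omega) q (NeZero.pos q) (by exact_mod_cast hqN)
  rw [← hW, ← hZ] at hEbig
  obtain ⟨L, hL⟩ : ∃ L, L = Real.log (N : ℝ) := ⟨_, rfl⟩
  have hε4 : 0 < 4 / ε := by positivity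
  have hZr : (Z : ℝ) ≤ (N : ℝ) ^ κ₂ := by rw [hZ]; exact Nat.floor_le (by positivity)
  have hZ1 : 1 ≤ Z := by
    rw [hZ]
    apply Nat.le_floor
    push_cast
    exact Real.one_le_rpow hNr1 hκ20.le
  have hZN : Z ≤ N := by
    have : (Z : ℝ) ≤ N := by
      calc (Z : ℝ) ≤ (N : ℝ) ^ κ₂ := hZr
        _ ≤ (N : ℝ) ^ (1 : ℝ) := Real.rpow_le_rpow_of_exponent_le hNr1 (by linarith)
        _ = N := Real.rpow_one _
    exact_mod_cast this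
  have hWr : (N : ℝ) ^ (κ₁ / 2) ≤ W := by
    obtain ⟨x, hx⟩ : ∃ x, x = (N : ℝ) ^ (κ₁ / 2) := ⟨_, rfl⟩
    have hx2 : (N : ℝ) ^ κ₁ = x * x := by
      rw [hx, ← Real.rpow_add hN0]
      congr 1
      ring
    have hx1 : 2 ≤ x := by
      rw [hx]
      rw [pow_one] at hLk
      linarith
    have h5 : (N : ℝ) ^ κ₁ < (W : ℝ) + 1 := by rw [hW]; exact Nat.lt_floor_add_one _
    rw [← hx]
    rw [hx2] at h5
    nlinarith
  have hG := hD3 q hq' hqD W Z (Nat.ceil_le.2 hWr) hZ1 (by rw [hκ₂] at hZr; exact hZr) β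
  rw [pow_one] at hG
  obtain ⟨E, hE⟩ : ∃ E, E = EE W Z q := ⟨_, rfl⟩
  have hEE0 : E0 ≤ E := by rw [hE]; exact hEbig
  have hE1 : 1 ≤ E := hE01.trans hEE0
  have hEpos : 0 < E := by linarith
  have htk := tk (W := W) (Z := Z) (q := q) (N := N) hZN (by rw [← hE]; exact hEpos)
  rw [← hE] at htk
  have hq0 : (0 : ℝ) < q := by exact_mod_cast NeZero.pos q
  -- the first part
  obtain ⟨w, hw⟩ : ∃ w : ℕ → ℂ, w = fun n => ((1 - om W Z q n / E : ℝ) : ℂ) * lc n := ⟨_, rfl⟩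
  have f1 : ∑ l : ZMod q, ‖cl q N w β l‖ ^ 2 ≤ 6 * (N : ℝ) ^ 2 / (q * E) := by
    refine ((Pool.Agent.Y812.GJ.l2 q N w).2 β).trans ?_
    have g1 : ∑ n ∈ Icc 1 N, ‖w n‖ ^ 2 ≤ 3 * N / E := by
      refine le_trans (sum_le_sum fun n _ => ?_) htk
      rw [hw]
      simp only [norm_mul, Complex.norm_real, Real.norm_eq_abs]
      rw [mul_pow, sq_abs]
      exact mul_le_of_le_one_right (sq_nonneg _) (pow_le_one₀ (norm_nonneg _) (lc_norm n))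
    have g2 : (N : ℝ) / q + 1 ≤ 2 * N / q := by
      have h3 : 1 ≤ (N : ℝ) / q := by rwa [one_le_div hq0]
      have h4 : 2 * (N : ℝ) / q = N / q + N / q := by ring
      linarith
    calc ((N : ℝ) / q + 1) * ∑ n ∈ Icc 1 N, ‖w n‖ ^ 2 ≤ (2 * N / q) * (3 * N / E) := by gcongr
      _ = 6 * (N : ℝ) ^ 2 / (q * E) := by
          field_simp
          ring
  -- the sum
  have f2 : ∀ l : ZMod q, ‖cl q N lc β l‖ ^ 2 ≤ 2 * ‖cl q N w β l‖ ^ 2 + 2 * ‖cl q N (Gw W Z q) β l‖ ^ 2 := by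
    intro l
    rw [cl_split (W := W) (Z := Z) hEpos.ne' β l, ← hw]
    have g1 : ‖((1 / E : ℝ) : ℂ) * cl q N (Gw W Z q) β l‖ ≤ ‖cl q N (Gw W Z q) β l‖ := by
      rw [norm_mul, Complex.norm_real, Real.norm_eq_abs, abs_of_pos (by positivity)]
      apply mul_le_of_le_one_left (norm_nonneg _)
      rw [div_le_one hEpos]
      exact hE1
    have g2 := norm_add_le (cl q N w β l) (((1 / E : ℝ) : ℂ) * cl q N (Gw W Z q) β l)
    have g3 : ‖cl q N w β l + ((1 / E : ℝ) : ℂ) * cl q N (Gw W Z q) β l‖ ≤ ‖cl q N w β l‖ + ‖cl q N (Gw W Z q) β l‖ := by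
      linarith
    refine (pow_le_pow_left₀ (norm_nonneg _) g3 2).trans ?_
    nlinarith [sq_nonneg (‖cl q N w β l‖ - ‖cl q N (Gw W Z q) β l‖)]
  refine (sum_le_sum fun l _ => f2 l).trans ?_
  rw [sum_add_distrib, ← mul_sum, ← mul_sum]
  have f3 : 2 * (6 * (N : ℝ) ^ 2 / (q * E)) ≤ ε * (N : ℝ) ^ 2 / q / 2 := by
    have g1 : 24 ≤ ε * E := by
      have : 24 / ε ≤ E := by linarith
      rw [div_le_iff₀ hε] at this
      linarith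
    rw [div_div, mul_div_assoc', div_le_div_iff₀ (by positivity) (by positivity)]
    have g2 : 0 ≤ (N : ℝ) ^ 2 * q := by positivity
    calc 2 * (6 * (N : ℝ) ^ 2) * (q * 2) = 24 * (N ^ 2 * q) := by ring
      _ ≤ (ε * E) * (N ^ 2 * q) := mul_le_mul_of_nonneg_right g1 g2
      _ = ε * (N : ℝ) ^ 2 * (q * E) := by ring
  have f4 : 2 * ((N : ℝ) ^ 2 / (q * Real.log N)) ≤ ε * (N : ℝ) ^ 2 / q / 2 := by
    rw [← hL] at hL1 ⊢
    have hL0 : 0 < L := by linarith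
    have g1 : 4 ≤ ε * L := by
      have : 4 / ε ≤ L := by linarith
      rw [div_le_iff₀ hε] at this
      linarith
    rw [div_div, mul_div_assoc', div_le_div_iff₀ (by positivity) (by positivity)]
    have g2 : 0 ≤ (N : ℝ) ^ 2 * q := by positivity
    calc 2 * (N : ℝ) ^ 2 * (q * 2) = 4 * (N ^ 2 * q) := by ring
      _ ≤ (ε * L) * (N ^ 2 * q) := mul_le_mul_of_nonneg_right g1 g2
      _ = ε * (N : ℝ) ^ 2 * (q * L) := by ring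
  linarith

end Pool.Agent.T9h57.LN
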