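import Pool.Agent.T9h57.LM.Prm2
import Pool.Agent.T9h57.LN.TK
import Pool.Agent.T9h57.GL.B1

/-!
# Bad characters: sums over primes in intervals and the exceptional integers
-/

set_option autoImplicit false

namespace Pool.Agent.T9h57.LN

open Finset
open Pool.Agent.Y883.GJ
open Pool.Agent.R460.GR (Bd dl)
open Pool.Agent.T9h57.PK (rad rad_pos rad_mul_le rad_le)
open Pool.Agent.T9h57.LM (pa ci_eq)
open Pool.Agent.Y183.GJ (ci gi Xi ai gi_pos gi_succ)

lemma ci_mono {δ : ℝ} (hδ : 0 < δ) {m m' : ℕ} (h : m ≤ m') : ci δ m ≤ ci δ m' := by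
  unfold ci
  refine Nat.floor_le_floor (div_le_div_of_nonneg_right ?_ hδ.le)
  rcases Nat.eq_zero_or_pos m with h0 | h0
  · rw [h0, Nat.cast_zero, Real.log_zero]
    exact Real.log_natCast_nonneg _
  · exact Real.log_le_log (by exact_mod_cast h0) (by exact_mod_cast h)

lemma exp_le2 {δ : ℝ} (hδ0 : 0 < δ) (hδ1 : δ ≤ 1) : Real.exp δ ≤ 1 + 2 * δ := by
  have := Real.exp_bound' hδ0.le hδ1 (n := 2) (by norm_num)
  norm_num [sum_range_succ, Nat.factorial] at this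
  nlinarith

open Classical in
/-- sums over the primes of an interval, for a character which is not bad -/
theorem interval {N K₂ K W₀ Z₀ f : ℕ} {ψ : DirichletCharacter ℂ f} {L : ℝ} (hL : L = Real.log N) (hL2 : 2 ≤ L)
    (hZN : Z₀ ≤ N) (hb : ¬ Bd N K₂ K (pa W₀ Z₀) f ψ) {u v : ℕ} (hu : W₀ ≤ u) (hv : v ≤ Z₀) :
    ‖∑ p ∈ (Ioc u v).filter Nat.Prime, ψ (p : ZMod f)‖ ≤
      L ^ (2 * K₂ + 2) * (v * (L ^ K)⁻¹) + 2 * (2 * (L ^ (2 * K₂))⁻¹ * v + 1) := by
  obtain ⟨δ, hδ⟩ : ∃ δ, δ = dl N K₂ := ⟨_, rfl⟩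
  have hδL : δ = (L ^ (2 * K₂))⁻¹ := by rw [hδ, hL]; rfl
  have hL0 : 0 < L := by linarith
  have hLo : 1 ≤ L := by linarith
  have hδ0 : 0 < δ := by rw [hδL]; positivity
  have hδ1 : δ ≤ 1 := by
    rw [hδL]
    exact inv_le_one_of_one_le₀ (one_le_pow₀ hLo)
  rw [← hδL]
  obtain ⟨I, hI⟩ : ∃ I : ℕ, I = ⌊L / δ⌋₊ + 1 := ⟨_, rfl⟩
  have hI1 : (I : ℝ) ≤ L ^ (2 * K₂ + 2) := by
    have h3 : L / δ = L * L ^ (2 * K₂) := by
      rw [hδL, div_inv_eq_mul]
    have h4 : ((⌊L / δ⌋₊ : ℕ) : ℝ) ≤ L * L ^ (2 * K₂) := by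
      rw [← h3]
      exact Nat.floor_le (by positivity)
    have h5 : 1 ≤ L * L ^ (2 * K₂) := one_le_mul_of_one_le_of_one_le hLo (one_le_pow₀ hLo)
    rw [hI]
    push_cast
    calc ((⌊L / δ⌋₊ : ℕ) : ℝ) + 1 ≤ 2 * (L * L ^ (2 * K₂)) := by linarith
      _ ≤ L * (L * L ^ (2 * K₂)) := mul_le_mul_of_nonneg_right hL2 (by positivity)
      _ = L ^ (2 * K₂ + 2) := by ring
  unfold Bd at hb
  rw [← hδ, ← hL, ← hI] at hb
  push Not at hb
  have hB0 : 0 ≤ 2 * δ * v + 1 := by positivity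
  have hmaps : ∀ p ∈ (Ioc u v).filter Nat.Prime, ci δ p ∈ range I := by
    intro p hp
    rw [mem_filter, mem_Ioc] at hp
    rw [mem_range, hI, Nat.lt_succ_iff]
    unfold ci
    refine Nat.floor_le_floor (div_le_div_of_nonneg_right ?_ hδ0.le)
    rw [hL]
    exact Real.log_le_log (by exact_mod_cast hp.2.pos) (by exact_mod_cast hp.1.2.trans (hv.trans hZN))
  rw [← sum_fiberwise_of_maps_to hmaps]
  refine (norm_sum_le _ _).trans ?_
  have hone : ∀ i ∈ range I, ‖∑ p ∈ ((Ioc u v).filter Nat.Prime).filter (fun p => ci δ p = i), ψ (p : ZMod f)‖ ≤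
      v * (L ^ K)⁻¹ + ((if i = ci δ u then (2 * δ * v + 1) else 0) + (if i = ci δ v then (2 * δ * v + 1) else 0)) := by
    intro i hi
    obtain ⟨P, hP⟩ : ∃ P, P = ((Ioc u v).filter Nat.Prime).filter (fun p => ci δ p = i) := ⟨_, rfl⟩
    rw [← hP]
    have hif1 : (0 : ℝ) ≤ (if i = ci δ u then (2 * δ * v + 1) else 0) := by split_ifs <;> linarith
    have hif2 : (0 : ℝ) ≤ (if i = ci δ v then (2 * δ * v + 1) else 0) := by split_ifs <;> linarith
    have hvK : 0 ≤ (v : ℝ) * (L ^ K)⁻¹ := by positivity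
    rcases P.eq_empty_or_nonempty with h0 | ⟨p₀, hp₀⟩
    · rw [h0, sum_empty, norm_zero]
      linarith
    have hp₀' := hp₀
    rw [hP, mem_filter, mem_filter, mem_Ioc] at hp₀'
    obtain ⟨⟨⟨hp1, hp2⟩, hp3⟩, hp4⟩ := hp₀'
    have hgv : gi δ i ≤ v := by
      have h1 := ((ci_eq hδ0 hp3.one_lt.le).1 hp4).1
      have h2 : (p₀ : ℝ) ≤ v := by exact_mod_cast hp2
      linarith
    by_cases hfull : ∀ m : ℕ, 1 ≤ m → ci δ m = i → u < m ∧ m ≤ v
    · -- the class is contained in the interval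
      have e1 : ∑ p ∈ P, ψ (p : ZMod f) = ∑ m ∈ Icc 1 (Xi δ i), ai δ (pa W₀ Z₀) i m * ψ (m : ZMod f) := by
        have e2 : P = (Icc 1 (Xi δ i)).filter (fun m => ci δ m = i ∧ m.Prime) := by
          ext m
          rw [hP, mem_filter, mem_filter, mem_Ioc, mem_filter, mem_Icc]
          constructor
          · rintro ⟨⟨⟨k1, k2⟩, k3⟩, k4⟩
            have k5 := ((ci_eq hδ0 k3.one_lt.le).1 k4).2
            refine ⟨⟨k3.one_lt.le, ?_⟩, k4, k3⟩
            unfold Xi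
            exact Nat.le_floor k5.le
          · rintro ⟨⟨k1, k2⟩, k3, k4⟩
            exact ⟨⟨hfull m k1 k3, k4⟩, k3⟩
        rw [e2, sum_filter]
        refine sum_congr rfl fun m hm => ?_
        rw [mem_Icc] at hm
        unfold ai pa
        by_cases hc : ci δ m = i
        · by_cases hpr : m.Prime
          · have k := hfull m hm.1 hc
            rw [if_pos ⟨hc, hpr⟩, if_pos hc, if_pos ⟨hpr, by omega, by omega⟩, one_mul]
          · rw [if_neg (fun h => hpr h.2), if_pos hc, if_neg (fun h => hpr h.1), zero_mul]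
        · rw [if_neg (fun h => hc h.1), if_neg hc, zero_mul]
      rw [e1]
      have e3 := hb i hi
      have e4 : gi δ i * (L ^ K)⁻¹ ≤ v * (L ^ K)⁻¹ := by gcongr
      linarith
    · -- the class contains an end of the interval
      have hcard : ‖∑ p ∈ P, ψ (p : ZMod f)‖ ≤ 2 * δ * v + 1 := by
        have k1 : ‖∑ p ∈ P, ψ (p : ZMod f)‖ ≤ (P.card : ℝ) := by
          refine (norm_sum_le _ _).trans ?_
          calc ∑ p ∈ P, ‖ψ (p : ZMod f)‖ ≤ ∑ p ∈ P, (1 : ℝ) := sum_le_sum fun p _ => ψ.norm_le_one _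
            _ = P.card := by rw [sum_const, nsmul_eq_mul, mul_one]
        have k2 : P ⊆ Ico ⌈gi δ i⌉₊ ⌈gi δ (i + 1)⌉₊ := by
          intro m hm
          rw [hP, mem_filter, mem_filter, mem_Ioc] at hm
          obtain ⟨⟨-, k3⟩, k4⟩ := hm
          have k5 := (ci_eq hδ0 k3.one_lt.le).1 k4
          rw [mem_Ico]
          exact ⟨Nat.ceil_le.2 k5.1, Nat.lt_ceil.2 k5.2⟩
        have k3 := card_le_card k2
        rw [Nat.card_Ico] at k3
        have k4 : (P.card : ℝ) ≤ 2 * δ * v + 1 := by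
          have k5 : gi δ (i + 1) ≤ gi δ i * (1 + 2 * δ) := by
            rw [gi_succ]
            exact mul_le_mul_of_nonneg_left (exp_le2 hδ0 hδ1) (gi_pos _ _).le
          have k6 : (⌈gi δ (i + 1)⌉₊ : ℝ) < gi δ (i + 1) + 1 := Nat.ceil_lt_add_one (gi_pos _ _).le
          have k7 : gi δ i ≤ (⌈gi δ i⌉₊ : ℝ) := Nat.le_ceil _
          have k8 : gi δ i ≤ gi δ (i + 1) := by
            rw [gi_succ]
            exact le_mul_of_one_le_right (gi_pos _ _).le (Real.one_le_exp hδ0.le)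
          have k9 : ⌈gi δ i⌉₊ ≤ ⌈gi δ (i + 1)⌉₊ := Nat.ceil_le_ceil k8
          have k10 : (P.card : ℝ) ≤ (⌈gi δ (i + 1)⌉₊ : ℝ) - (⌈gi δ i⌉₊ : ℝ) := by
            rw [← Nat.cast_sub k9]
            exact_mod_cast k3
          have k11 : 2 * δ * gi δ i ≤ 2 * δ * v := by gcongr
          linarith
        exact k1.trans k4
      push Not at hfull
      obtain ⟨m, hm1, hm2, hm3⟩ := hfull
      rcases Nat.lt_or_ge u m with hum | hum
      · have hvm := hm3 hum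
        have k1 : ci δ v ≤ i := by rw [← hm2]; exact ci_mono hδ0 (by omega)
        have k2 : i ≤ ci δ v := by rw [← hp4]; exact ci_mono hδ0 hp2
        rw [if_pos (le_antisymm k2 k1)]
        linarith
      · have k1 : i ≤ ci δ u := by rw [← hm2]; exact ci_mono hδ0 hum
        have k2 : ci δ u ≤ i := by rw [← hp4]; exact ci_mono hδ0 hp1.le
        rw [if_pos (le_antisymm k1 k2)]
        linarith
  refine (sum_le_sum hone).trans ?_
  rw [sum_add_distrib, sum_add_distrib, sum_const, card_range, nsmul_eq_mul, sum_ite_eq', sum_ite_eq']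
  have h1 : (if ci δ u ∈ range I then (2 * δ * v + 1) else 0) ≤ 2 * δ * v + 1 := by split_ifs <;> linarith
  have h2 : (if ci δ v ∈ range I then (2 * δ * v + 1) else 0) ≤ 2 * δ * v + 1 := by split_ifs <;> linarith
  have h3 : (I : ℝ) * (v * (L ^ K)⁻¹) ≤ L ^ (2 * K₂ + 2) * (v * (L ^ K)⁻¹) := by gcongr
  linarith

open Classical in
/-- the sums over short classes at another level -/
theorem cell_transfer {κ : ℝ} (hκ : 0 < κ) (K' : ℕ) : ∃ N₀ : ℕ, ∀ N : ℕ, N₀ ≤ N →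
    ∀ W₀ Z₀ : ℕ, (N : ℝ) ^ κ ≤ W₀ → Z₀ ≤ N →
    ∀ (r' : ℕ) [NeZero r'] (χ : DirichletCharacter ℂ r'),
    ¬ Bd N (K' + 5) (2 * (K' + 5) + K' + 3) (pa W₀ Z₀) χ.conductor χ.primitiveCharacter →
    ∀ W Z q : ℕ, W₀ ≤ W → Z ≤ Z₀ → 1 ≤ q → q ≤ N → (∀ p ∈ PR W Z q, ¬ p ∣ r') →
    ∀ δ L' : ℝ, 0 < δ → δ ≤ 1 → 0 < L' → L' ≤ Real.log N → ∀ i : ℕ,
      ‖∑ m ∈ Icc 1 (Xi δ i), ai δ (pq W Z q) i m * χ (m : ZMod r')‖ ≤ gi δ i * (L' ^ K')⁻¹ := by
  obtain ⟨N₁, hN₁⟩ := Filter.eventually_atTop.1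
    (Pool.Agent.Y614.GJ.Core.ev_log (K' + 3) (s := κ) hκ 1000)
  refine ⟨N₁ + 1, fun N hN W₀ Z₀ hW₀ hZ₀ r' _ χ hb W Z q hW hZ hq1 hqN hp δ L' hδ0 hδ1 hL'0 hL' i => ?_⟩
  obtain ⟨hL1, hLp⟩ := hN₁ N (by omega)
  obtain ⟨L, hL⟩ : ∃ L, L = Real.log (N : ℝ) := ⟨_, rfl⟩
  rw [← hL] at hL1 hLp hL'
  have hL0 : 0 < L := by linarith
  have hLo : 1 ≤ L := by linarith
  have hN0 : (0 : ℝ) < N := by exact_mod_cast (by omega : 0 < N)
  obtain ⟨g, hg⟩ : ∃ g, g = gi δ i := ⟨_, rfl⟩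
  have hg0 : 0 < g := by rw [hg]; exact gi_pos _ _
  obtain ⟨g', hg'⟩ : ∃ g', g' = gi δ (i + 1) := ⟨_, rfl⟩
  have hgg : g' = g * Real.exp δ := by rw [hg, hg', gi_succ]
  have hg'0 : 0 < g' := by rw [hgg]; positivity
  have hexp := exp_le2 hδ0 hδ1
  obtain ⟨u, hu⟩ : ∃ u, u = max W (⌈g⌉₊ - 1) := ⟨_, rfl⟩
  obtain ⟨v, hv⟩ : ∃ v, v = min Z (⌈g'⌉₊ - 1) := ⟨_, rfl⟩
  have hcg : 1 ≤ ⌈g⌉₊ := Nat.ceil_pos.2 hg0
  have hcg' : 1 ≤ ⌈g'⌉₊ := Nat.ceil_pos.2 hg'0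
  have hset : (Icc 1 (Xi δ i)).filter (fun m => ci δ m = i ∧ m.Prime ∧ W < m ∧ m ≤ Z ∧ ¬ m ∣ q) =
      ((Ioc u v).filter Nat.Prime).filter (fun p => ¬ p ∣ q) := by
    ext m
    rw [mem_filter, mem_filter, mem_filter, mem_Icc, mem_Ioc, hu, hv, max_lt_iff, le_min_iff]
    constructor
    · rintro ⟨⟨hm1, hm2⟩, hc, hpr, hw, hz, hmq⟩
      rw [ci_eq hδ0 hm1, ← hg, ← hg'] at hc
      have a1 : ⌈g⌉₊ ≤ m := Nat.ceil_le.2 hc.1
      have a2 : m < ⌈g'⌉₊ := Nat.lt_ceil.2 hc.2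
      exact ⟨⟨⟨⟨hw, by omega⟩, hz, by omega⟩, hpr⟩, hmq⟩
    · rintro ⟨⟨⟨⟨hw, h3⟩, hz, h4⟩, hpr⟩, hmq⟩
      have hm1 : 1 ≤ m := hpr.one_lt.le
      have a1 : g ≤ m := Nat.ceil_le.1 (by omega)
      have a2 : (m : ℝ) < g' := Nat.lt_ceil.1 (by omega)
      refine ⟨⟨hm1, ?_⟩, ?_, hpr, hw, hz, hmq⟩
      · unfold Xi
        rw [← hg']
        exact Nat.le_floor a2.le
      · rw [ci_eq hδ0 hm1, ← hg, ← hg']
        exact ⟨a1, a2⟩
  have hWu : W ≤ u := by rw [hu]; exact le_max_left _ _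
  have hvZ : v ≤ Z := by rw [hv]; exact min_le_left _ _
  have hsum : ∑ m ∈ Icc 1 (Xi δ i), ai δ (pq W Z q) i m * χ (m : ZMod r') =
      ∑ p ∈ ((Ioc u v).filter Nat.Prime).filter (fun p => ¬ p ∣ q), χ.primitiveCharacter (p : ZMod χ.conductor) := by
    have e1 : ∑ p ∈ ((Ioc u v).filter Nat.Prime).filter (fun p => ¬ p ∣ q),
        χ.primitiveCharacter (p : ZMod χ.conductor) =
        ∑ p ∈ ((Ioc u v).filter Nat.Prime).filter (fun p => ¬ p ∣ q), χ (p : ZMod r') := by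
      refine sum_congr rfl fun p hp' => ?_
      rw [mem_filter, mem_filter, mem_Ioc] at hp'
      obtain ⟨⟨⟨k1, k2⟩, k3⟩, k4⟩ := hp'
      have k5 : ¬ p ∣ r' := hp p (PR_mem.2 ⟨⟨by omega, by omega⟩, k3, k4⟩)
      have k6 : p.Coprime r' := (Nat.Prime.coprime_iff_not_dvd k3).2 k5
      have h4 := DirichletCharacter.primitiveCharacter_apply_of_isCoprime χ (a := (p : ℤ))
        (Nat.isCoprime_iff_coprime.2 k6)
      rw [Int.cast_natCast, Int.cast_natCast] at h4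
      exact h4
    rw [e1, ← hset, sum_filter]
    refine sum_congr rfl fun m _ => ?_
    unfold ai pq
    by_cases hc : ci δ m = i
    · by_cases hpp : m.Prime ∧ W < m ∧ m ≤ Z ∧ ¬ m ∣ q
      · rw [if_pos hc, if_pos hpp, if_pos ⟨hc, hpp⟩, one_mul]
      · rw [if_pos hc, if_neg hpp, if_neg (fun h => hpp h.2), zero_mul]
    · rw [if_neg hc, if_neg (fun h => hc h.1), zero_mul]
  rw [hsum, ← hg]
  have hR0 : 0 ≤ g * (L' ^ K')⁻¹ := by positivity
  rcases le_or_gt v u with huv | huv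
  · rw [Ioc_eq_empty (by omega), filter_empty, filter_empty, sum_empty, norm_zero]
    exact hR0
  have hv1 : 1 ≤ v := by omega
  have hvg : (v : ℝ) ≤ g' := by
    have a1 : v ≤ ⌈g'⌉₊ - 1 := by rw [hv]; exact min_le_right _ _
    exact (Nat.lt_ceil.1 (by omega : v < ⌈g'⌉₊)).le
  have hg3 : g' ≤ 3 * g := by
    rw [hgg]
    nlinarith
  have hκg : (N : ℝ) ^ κ ≤ 3 * g := by
    have h1 : (W₀ : ℝ) ≤ v := by exact_mod_cast (by omega : W₀ ≤ v)
    linarith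
  have hint := interval (u := u) (v := v) hL (by linarith) hZ₀ hb (hW.trans hWu) (hvZ.trans hZ)
  have hsplit : ∑ p ∈ ((Ioc u v).filter Nat.Prime).filter (fun p => ¬ p ∣ q),
      χ.primitiveCharacter (p : ZMod χ.conductor) = ∑ p ∈ (Ioc u v).filter Nat.Prime,
      χ.primitiveCharacter (p : ZMod χ.conductor) - ∑ p ∈ ((Ioc u v).filter Nat.Prime).filter (fun p => p ∣ q),
      χ.primitiveCharacter (p : ZMod χ.conductor) := by
    rw [← sum_filter_add_sum_filter_not ((Ioc u v).filter Nat.Prime) (fun p => p ∣ q), add_sub_cancel_left]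
  have hdiv : ‖∑ p ∈ ((Ioc u v).filter Nat.Prime).filter (fun p => p ∣ q),
      χ.primitiveCharacter (p : ZMod χ.conductor)‖ ≤ 2 * L := by
    refine (norm_sum_le _ _).trans ?_
    calc ∑ p ∈ ((Ioc u v).filter Nat.Prime).filter (fun p => p ∣ q), ‖χ.primitiveCharacter (p : ZMod χ.conductor)‖ ≤
        ∑ p ∈ ((Ioc u v).filter Nat.Prime).filter (fun p => p ∣ q), (1 : ℝ) :=
          sum_le_sum fun p _ => DirichletCharacter.norm_le_one _ _
      _ = ((((Ioc u v).filter Nat.Prime).filter (fun p => p ∣ q)).card : ℝ) := by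
          rw [sum_const, nsmul_eq_mul, mul_one]
      _ ≤ (q.primeFactors.card : ℝ) := by
          have : ((Ioc u v).filter Nat.Prime).filter (fun p => p ∣ q) ⊆ q.primeFactors := by
            intro p hp'
            rw [mem_filter, mem_filter] at hp'
            exact Nat.mem_primeFactors.2 ⟨hp'.1.2, hp'.2, by omega⟩
          exact_mod_cast card_le_card this
      _ ≤ 2 * Real.log q := card_pf hq1
      _ ≤ 2 * L := by
          rw [hL]
          have : Real.log q ≤ Real.log N := Real.log_le_log (by exact_mod_cast hq1) (by exact_mod_cast hqN)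
          linarith
  rw [hsplit]
  refine (norm_sub_le _ _).trans ((add_le_add hint hdiv).trans ?_)
  obtain ⟨x, hx⟩ : ∃ x, x = L ^ K' := ⟨_, rfl⟩
  have hx0 : 1 ≤ x := by rw [hx]; exact one_le_pow₀ hLo
  have hxp : 0 < x := by linarith
  -- the three terms
  have c1 : L ^ (2 * (K' + 5) + 2) * (v * (L ^ (2 * (K' + 5) + K' + 3))⁻¹) = v / (x * L) := by
    have : L ^ (2 * (K' + 5) + K' + 3) = L ^ (2 * (K' + 5) + 2) * (x * L) := by
      rw [hx, ← pow_succ, ← pow_add]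
      congr 1
      omega
    rw [this]
    field_simp
  have c2 : 2 * (L ^ (2 * (K' + 5)))⁻¹ * v ≤ 2 * (v / (x * L)) := by
    have h1 : x * L ≤ L ^ (2 * (K' + 5)) := by
      rw [hx, ← pow_succ]
      exact pow_le_pow_right₀ hLo (by omega)
    have h2 : (L ^ (2 * (K' + 5)))⁻¹ ≤ (x * L)⁻¹ := by gcongr
    calc 2 * (L ^ (2 * (K' + 5)))⁻¹ * v ≤ 2 * (x * L)⁻¹ * v := by gcongr
      _ = 2 * (v / (x * L)) := by rw [div_eq_mul_inv]; ring
  have c3 : (v : ℝ) / (x * L) ≤ 3 * g / (x * L) := by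
    have : (v : ℝ) ≤ 3 * g := by linarith
    gcongr
  have c4 : 2 + 2 * L ≤ 3 * g / (x * L) := by
    rw [le_div_iff₀ (by positivity)]
    have h1 : L ^ (K' + 3) = x * L ^ 3 := by rw [hx, pow_add]
    have h2 : (2 + 2 * L) * (x * L) ≤ x * L ^ 3 := by
      have h3 : (2 + 2 * L) * L ≤ L ^ 3 := by
        have h4 : 2 + 2 * L ≤ L ^ 2 := by nlinarith
        calc (2 + 2 * L) * L ≤ L ^ 2 * L := by gcongr
          _ = L ^ 3 := by ring
      calc (2 + 2 * L) * (x * L) = x * ((2 + 2 * L) * L) := by ring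
        _ ≤ x * L ^ 3 := by gcongr
    linarith
  have c5 : g * (L' ^ K')⁻¹ ≥ g / x := by
    rw [div_eq_mul_inv, hx]
    have : L' ^ K' ≤ L ^ K' := by gcongr
    gcongr
  have c6 : 3 * g / (x * L) * 6 ≤ g / x := by
    have : 3 * g / (x * L) * 6 = g / x * (18 / L) := by field_simp; ring
    rw [this]
    have h1 : 18 / L ≤ 1 := by rw [div_le_one hL0]; linarith
    have h2 : 0 ≤ g / x := by positivity
    nlinarith
  rw [c1]
  have c7 : 0 ≤ 3 * g / (x * L) := by positivity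
  linarith

end Pool.Agent.T9h57.LN
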