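import Pool.Agent.Y697.GJ.LiftC
import Pool.Agent.Y872.GJ.Pars
import Pool.Agent.T9h57.LM.TK

/-!
# Mean squares over the shifts in a residue class
-/

set_option autoImplicit false

namespace Pool.Agent.T9h57.LN

open Finset
open Pool.Agent.Y883.GJ
open Pool.Agent.H807R2.Dav (ee)
open Pool.Agent.T9h57.LM (lc lc_norm lc_mul)

lemma cauchy {q : ℕ} [NeZero q] (x y : ZMod q → ℂ) :
    ‖∑ l : ZMod q, x l * y l‖ ^ 2 ≤ (∑ l : ZMod q, ‖x l‖ ^ 2) * ∑ l : ZMod q, ‖y l‖ ^ 2 := by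
  have h1 : ‖∑ l : ZMod q, x l * y l‖ ≤ ∑ l : ZMod q, ‖x l‖ * ‖y l‖ :=
    (norm_sum_le _ _).trans (le_of_eq (sum_congr rfl fun l _ => norm_mul _ _))
  refine (pow_le_pow_left₀ (norm_nonneg _) h1 2).trans ?_
  exact Finset.sum_mul_sq_le_sq_mul_sq _ _ _

/-- differences -/
lemma diff_bound {q N : ℕ} [NeZero q] (hN : 1 ≤ N) (G F : ℕ → ℂ) (B : ℝ)
    (hB : ∀ β : ℝ, ∑ l : ZMod q, ‖cl q N G β l‖ ^ 2 ≤ B) (a : ZMod q) :
    ∑ k ∈ (Icc (-(N : ℤ)) N).filter (fun k : ℤ => (k : ZMod q) = a),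
      ‖∑ b ∈ Icc 1 N, ∑ c ∈ Icc 1 N, if (b : ℤ) - c = k then G b * (starRingEnd ℂ) (F c) else 0‖ ^ 2 ≤
      B * ∑ n ∈ Icc 1 N, ‖F n‖ ^ 2 := by
  have h1 := Pool.Agent.Y697.GJ.parsC q N G F hN a
  have h2 := (Pool.Agent.Y872.GJ.pars q N G F hN).2
  have h0 : (0 : ℝ) < ((2 * N + 1 : ℕ) : ℝ) := by positivity
  refine le_of_mul_le_mul_left ?_ h0
  rw [h1]
  have hB0 : 0 ≤ B := le_trans (sum_nonneg fun _ _ => by positivity) (hB 0)
  calc ∑ t ∈ range (2 * N + 1), ‖∑ l : ZMod q, cl q N G ((t : ℝ) / (2 * N + 1 : ℕ)) l *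
        (starRingEnd ℂ) (cl q N F ((t : ℝ) / (2 * N + 1 : ℕ)) (l - a))‖ ^ 2 ≤
      ∑ t ∈ range (2 * N + 1), B * ∑ l : ZMod q, ‖cl q N F ((t : ℝ) / (2 * N + 1 : ℕ)) l‖ ^ 2 := by
        refine sum_le_sum fun t _ => ?_
        refine (cauchy _ _).trans ?_
        have e1 : ∑ l : ZMod q, ‖(starRingEnd ℂ) (cl q N F ((t : ℝ) / (2 * N + 1 : ℕ)) (l - a))‖ ^ 2 =
            ∑ l : ZMod q, ‖cl q N F ((t : ℝ) / (2 * N + 1 : ℕ)) l‖ ^ 2 := by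
          simp only [RCLike.norm_conj]
          exact Fintype.sum_equiv (Equiv.subRight a) _ _ (fun l => rfl)
        rw [e1]
        exact mul_le_mul_of_nonneg_right (hB _) (sum_nonneg fun _ _ => by positivity)
    _ = B * ∑ t ∈ range (2 * N + 1), ∑ l : ZMod q, ‖cl q N F ((t : ℝ) / (2 * N + 1 : ℕ)) l‖ ^ 2 := by
        rw [mul_sum]
    _ = ((2 * N + 1 : ℕ) : ℝ) * (B * ∑ n ∈ Icc 1 N, ‖F n‖ ^ 2) := by
        rw [h2]
        ring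

/-- sums -/
lemma sum_bound {q N : ℕ} [NeZero q] (hN : 1 ≤ N) (G F : ℕ → ℂ) (B : ℝ)
    (hB : ∀ β : ℝ, ∑ l : ZMod q, ‖cl q N G β l‖ ^ 2 ≤ B) (a : ZMod q) :
    ∑ n ∈ (Icc 1 (2 * N)).filter (fun n : ℕ => (n : ZMod q) = a),
      ‖∑ b ∈ Icc 1 N, ∑ c ∈ Icc 1 N, if b + c = n then G b * F c else 0‖ ^ 2 ≤
      B * ∑ n ∈ Icc 1 N, ‖F n‖ ^ 2 := by
  have h1 := (Pool.Agent.Y872.GJ.pars q N G F hN).1 a
  have h2 := (Pool.Agent.Y872.GJ.pars q N G F hN).2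
  have h0 : (0 : ℝ) < ((2 * N + 1 : ℕ) : ℝ) := by positivity
  refine le_of_mul_le_mul_left ?_ h0
  rw [h1]
  calc ∑ t ∈ range (2 * N + 1), ‖∑ l : ZMod q, cl q N G ((t : ℝ) / (2 * N + 1 : ℕ)) l *
        cl q N F ((t : ℝ) / (2 * N + 1 : ℕ)) (a - l)‖ ^ 2 ≤
      ∑ t ∈ range (2 * N + 1), B * ∑ l : ZMod q, ‖cl q N F ((t : ℝ) / (2 * N + 1 : ℕ)) l‖ ^ 2 := by
        refine sum_le_sum fun t _ => ?_
        refine (cauchy _ _).trans ?_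
        have e1 : ∑ l : ZMod q, ‖cl q N F ((t : ℝ) / (2 * N + 1 : ℕ)) (a - l)‖ ^ 2 =
            ∑ l : ZMod q, ‖cl q N F ((t : ℝ) / (2 * N + 1 : ℕ)) l‖ ^ 2 :=
          Fintype.sum_equiv (Equiv.subLeft a) _ _ (fun l => rfl)
        rw [e1]
        exact mul_le_mul_of_nonneg_right (hB _) (sum_nonneg fun _ _ => by positivity)
    _ = B * ∑ t ∈ range (2 * N + 1), ∑ l : ZMod q, ‖cl q N F ((t : ℝ) / (2 * N + 1 : ℕ)) l‖ ^ 2 := by
        rw [mul_sum]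
    _ = ((2 * N + 1 : ℕ) : ℝ) * (B * ∑ n ∈ Icc 1 N, ‖F n‖ ^ 2) := by
        rw [h2]
        ring

/-- the sequence supported on the multiples of `c` up to `c y` -/
noncomputable def sp (c y : ℕ) (Φ : ℕ → ℂ) (m : ℕ) : ℂ := if c ∣ m ∧ m / c ≤ y then Φ (m / c) else 0

lemma sum_sp {c y N : ℕ} (hc : 0 < c) (hN : c * y ≤ N) (Φ : ℕ → ℂ) (f : ℕ → ℂ → ℂ) (hf : ∀ m, f m 0 = 0) :
    ∑ m ∈ Icc 1 N, f m (sp c y Φ m) = ∑ n ∈ Icc 1 y, f (c * n) (Φ n) := by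
  symm
  refine sum_bij_ne_zero (fun n _ _ => c * n) ?_ ?_ ?_ ?_
  · intro n hn _
    rw [mem_Icc] at hn ⊢
    exact ⟨Nat.mul_pos hc hn.1, (Nat.mul_le_mul_left c hn.2).trans hN⟩
  · intro n _ _ n' _ _ h
    exact Nat.eq_of_mul_eq_mul_left hc h
  · intro m hm hm0
    rw [mem_Icc] at hm
    by_cases h : c ∣ m ∧ m / c ≤ y
    · obtain ⟨⟨n, rfl⟩, h2⟩ := h
      rw [Nat.mul_div_cancel_left n hc] at h2
      have hn1 : 1 ≤ n := by
        rcases Nat.eq_zero_or_pos n with h0 | h0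
        · rw [h0, mul_zero] at hm
          omega
        · exact h0
      refine ⟨n, mem_Icc.2 ⟨hn1, h2⟩, ?_, rfl⟩
      unfold sp at hm0
      rw [Nat.mul_div_cancel_left n hc, if_pos ⟨Dvd.intro _ rfl, h2⟩] at hm0
      exact hm0
    · exfalso
      apply hm0
      unfold sp
      rw [if_neg h, hf]
  · intro n hn _
    rw [mem_Icc] at hn
    unfold sp
    rw [Nat.mul_div_cancel_left n hc, if_pos ⟨Dvd.intro _ rfl, hn.2⟩]

lemma sp_sq {c y N : ℕ} (hc : 0 < c) (hN : c * y ≤ N) (Φ : ℕ → ℂ) (hΦ : ∀ n, ‖Φ n‖ ≤ 1) :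
    ∑ m ∈ Icc 1 N, ‖sp c y Φ m‖ ^ 2 ≤ y := by
  have h := sum_sp hc hN Φ (fun _ z => ((‖z‖ ^ 2 : ℝ) : ℂ)) (fun m => by simp)
  have h2 : ∑ m ∈ Icc 1 N, ‖sp c y Φ m‖ ^ 2 = ∑ n ∈ Icc 1 y, ‖Φ n‖ ^ 2 := by
    have h3 : ((∑ m ∈ Icc 1 N, ‖sp c y Φ m‖ ^ 2 : ℝ) : ℂ) = ((∑ n ∈ Icc 1 y, ‖Φ n‖ ^ 2 : ℝ) : ℂ) := by
      rw [Complex.ofReal_sum, Complex.ofReal_sum]
      exact h
    exact_mod_cast h3
  rw [h2]
  calc ∑ n ∈ Icc 1 y, ‖Φ n‖ ^ 2 ≤ ∑ n ∈ Icc 1 y, (1 : ℝ) :=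
        sum_le_sum fun n _ => pow_le_one₀ (norm_nonneg _) (hΦ n)
    _ = y := by rw [sum_const, Nat.card_Icc, nsmul_eq_mul, mul_one, Nat.add_sub_cancel]

/-- the correlation for the shift `h` -/
noncomputable def TT (c y : ℕ) (Φ : ℕ → ℂ) (h : ℤ) : ℂ := ∑ n ∈ Icc 1 y, Φ n * lc ((c : ℤ) * n + h).natAbs

lemma lc_zero : lc 0 = 0 := by
  unfold Pool.Agent.T9h57.LM.lc
  rw [Pool.Agent.N403.QG.la_zero]
  norm_num

/-- the two parts -/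
lemma TT_eq {c y N : ℕ} (hc : 0 < c) {h : ℤ} (hN : (c * y : ℕ) + |h| ≤ N) (Φ : ℕ → ℂ) :
    TT c y Φ h = ∑ b ∈ Icc 1 N, ∑ m ∈ Icc 1 N, (if (b : ℤ) - m = h then
        lc b * (starRingEnd ℂ) (sp c y (fun n => (starRingEnd ℂ) (Φ n)) m) else 0) +
      ∑ b ∈ Icc 1 N, ∑ m ∈ Icc 1 N, (if b + m = (-h).toNat then lc b * sp c y Φ m else 0) := by
  have habs := abs_nonneg h
  have habs1 := le_abs_self h
  have habs2 := neg_abs_le h
  have hcy : c * y ≤ N := by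
    have : ((c * y : ℕ) : ℤ) ≤ N := by linarith
    exact_mod_cast this
  rw [show (∑ b ∈ Icc 1 N, ∑ m ∈ Icc 1 N, (if (b : ℤ) - m = h then
        lc b * (starRingEnd ℂ) (sp c y (fun n => (starRingEnd ℂ) (Φ n)) m) else 0)) =
      ∑ m ∈ Icc 1 N, ∑ b ∈ Icc 1 N, (if (b : ℤ) - m = h then
        lc b * (starRingEnd ℂ) (sp c y (fun n => (starRingEnd ℂ) (Φ n)) m) else 0) from sum_comm,
    show (∑ b ∈ Icc 1 N, ∑ m ∈ Icc 1 N, (if b + m = (-h).toNat then lc b * sp c y Φ m else 0)) =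
      ∑ m ∈ Icc 1 N, ∑ b ∈ Icc 1 N, (if b + m = (-h).toNat then lc b * sp c y Φ m else 0) from sum_comm]
  rw [sum_sp hc hcy (fun n => (starRingEnd ℂ) (Φ n)) (fun m z => ∑ b ∈ Icc 1 N, if (b : ℤ) - m = h then
      lc b * (starRingEnd ℂ) z else 0) (fun m => by simp)]
  rw [sum_sp hc hcy Φ (fun m z => ∑ b ∈ Icc 1 N, if b + m = (-h).toNat then lc b * z else 0) (fun m => by simp)]
  rw [← sum_add_distrib]
  unfold TT
  refine sum_congr rfl fun n hn => ?_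
  rw [mem_Icc] at hn
  have hcn : ((c * n : ℕ) : ℤ) ≤ (c * y : ℕ) := by exact_mod_cast Nat.mul_le_mul_left c hn.2
  have hcn0 : 0 < c * n := Nat.mul_pos hc hn.1
  obtain ⟨m, hm⟩ : ∃ m, m = c * n := ⟨_, rfl⟩
  have hmz : (c : ℤ) * n = (m : ℤ) := by rw [hm]; push_cast; ring
  rw [hmz]
  rw [← hm] at hcn hcn0 ⊢
  rw [Complex.conj_conj]
  rcases lt_trichotomy ((m : ℤ) + h) 0 with hlt | heq | hgt
  · have e1 : ∑ b ∈ Icc 1 N, (if (b : ℤ) - m = h then lc b * Φ n else 0) = 0 := by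
      refine sum_eq_zero fun b hb => ?_
      rw [mem_Icc] at hb
      rw [if_neg (by omega)]
    obtain ⟨b₀, hb₀⟩ : ∃ b₀, b₀ = ((m : ℤ) + h).natAbs := ⟨_, rfl⟩
    have e2 : ∑ b ∈ Icc 1 N, (if b + m = (-h).toNat then lc b * Φ n else 0) = lc b₀ * Φ n := by
      rw [sum_eq_single b₀]
      · rw [if_pos (by omega)]
      · intro b _ hne
        rw [if_neg (by omega)]
      · intro hcon
        exact absurd (mem_Icc.2 ⟨by omega, by omega⟩) hcon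
    rw [e1, e2, ← hb₀]
    ring
  · have e1 : ∑ b ∈ Icc 1 N, (if (b : ℤ) - m = h then lc b * Φ n else 0) = 0 := by
      refine sum_eq_zero fun b hb => ?_
      rw [mem_Icc] at hb
      rw [if_neg (by omega)]
    have e2 : ∑ b ∈ Icc 1 N, (if b + m = (-h).toNat then lc b * Φ n else 0) = 0 := by
      refine sum_eq_zero fun b hb => ?_
      rw [mem_Icc] at hb
      rw [if_neg (by omega)]
    rw [e1, e2, heq, Int.natAbs_zero, lc_zero]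
    ring
  · have e2 : ∑ b ∈ Icc 1 N, (if b + m = (-h).toNat then lc b * Φ n else 0) = 0 := by
      refine sum_eq_zero fun b hb => ?_
      rw [mem_Icc] at hb
      rw [if_neg (by omega)]
    obtain ⟨b₀, hb₀⟩ : ∃ b₀, b₀ = ((m : ℤ) + h).natAbs := ⟨_, rfl⟩
    have e1 : ∑ b ∈ Icc 1 N, (if (b : ℤ) - m = h then lc b * Φ n else 0) = lc b₀ * Φ n := by
      rw [sum_eq_single b₀]
      · rw [if_pos (by omega)]
      · intro b _ hne
        rw [if_neg (by omega)]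
      · intro hcon
        exact absurd (mem_Icc.2 ⟨by omega, by omega⟩) hcon
    rw [e1, e2, ← hb₀]
    ring

/-- the mean square over the shifts in a residue class -/
theorem mean_sq {q N : ℕ} [NeZero q] (hN : 1 ≤ N) (B : ℝ)
    (hB : ∀ β : ℝ, ∑ l : ZMod q, ‖cl q N lc β l‖ ^ 2 ≤ B) (a : ZMod q) {c y : ℕ} (hc : 0 < c) {H : ℕ}
    (hNH : c * y + H ≤ N) (Φ : ℕ → ℂ) (hΦ : ∀ n, ‖Φ n‖ ≤ 1) :
    ∑ h ∈ (Icc (-(H : ℤ)) H).filter (fun h : ℤ => (h : ZMod q) = a), ‖TT c y Φ h‖ ^ 2 ≤ 4 * B * y := by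
  classical
  have hcy : c * y ≤ N := by omega
  have hB0 : 0 ≤ B := le_trans (sum_nonneg fun _ _ => by positivity) (hB 0)
  obtain ⟨f1, hf1⟩ : ∃ f1 : ℤ → ℂ, f1 = fun h => ∑ b ∈ Icc 1 N, ∑ m ∈ Icc 1 N, (if (b : ℤ) - m = h then
        lc b * (starRingEnd ℂ) (sp c y (fun n => (starRingEnd ℂ) (Φ n)) m) else 0) := ⟨_, rfl⟩
  obtain ⟨f2, hf2⟩ : ∃ f2 : ℕ → ℂ, f2 = fun k => ∑ b ∈ Icc 1 N, ∑ m ∈ Icc 1 N,
      (if b + m = k then lc b * sp c y Φ m else 0) := ⟨_, rfl⟩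
  have hD := diff_bound hN lc (sp c y (fun n => (starRingEnd ℂ) (Φ n))) B hB a
  have hS := sum_bound hN lc (sp c y Φ) B hB (-a)
  have hy1 := sp_sq hc hcy (fun n => (starRingEnd ℂ) (Φ n)) (fun n => by rw [RCLike.norm_conj]; exact hΦ n)
  have hy2 := sp_sq hc hcy Φ hΦ
  have hTT : ∀ h ∈ (Icc (-(H : ℤ)) H).filter (fun h : ℤ => (h : ZMod q) = a),
      ‖TT c y Φ h‖ ^ 2 ≤ 2 * ‖f1 h‖ ^ 2 + 2 * ‖f2 (-h).toNat‖ ^ 2 := by
    intro h hh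
    rw [mem_filter, mem_Icc] at hh
    have habs : |h| ≤ H := abs_le.2 ⟨hh.1.1, hh.1.2⟩
    have e := TT_eq hc (h := h) (y := y) (N := N) (by
      have : ((c * y : ℕ) : ℤ) + H ≤ N := by exact_mod_cast hNH
      linarith) Φ
    rw [e, hf1, hf2]
    refine (pow_le_pow_left₀ (norm_nonneg _) (norm_add_le _ _) 2).trans ?_
    nlinarith [sq_nonneg (‖∑ b ∈ Icc 1 N, ∑ m ∈ Icc 1 N, (if (b : ℤ) - m = h then
        lc b * (starRingEnd ℂ) (sp c y (fun n => (starRingEnd ℂ) (Φ n)) m) else 0)‖ -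
        ‖∑ b ∈ Icc 1 N, ∑ m ∈ Icc 1 N, (if b + m = (-h).toNat then lc b * sp c y Φ m else 0)‖)]
  refine (sum_le_sum hTT).trans ?_
  rw [sum_add_distrib, ← mul_sum, ← mul_sum]
  have g1 : ∑ h ∈ (Icc (-(H : ℤ)) H).filter (fun h : ℤ => (h : ZMod q) = a), ‖f1 h‖ ^ 2 ≤ B * y := by
    have h2 : ∑ h ∈ (Icc (-(H : ℤ)) H).filter (fun h : ℤ => (h : ZMod q) = a), ‖f1 h‖ ^ 2 ≤
        ∑ h ∈ (Icc (-(N : ℤ)) N).filter (fun h : ℤ => (h : ZMod q) = a), ‖f1 h‖ ^ 2 := by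
      refine sum_le_sum_of_subset_of_nonneg ?_ fun _ _ _ => by positivity
      intro h hh
      rw [mem_filter, mem_Icc] at hh ⊢
      have : (H : ℤ) ≤ N := by exact_mod_cast (by omega : H ≤ N)
      exact ⟨⟨by omega, by omega⟩, hh.2⟩
    refine h2.trans ?_
    rw [hf1]
    exact hD.trans (mul_le_mul_of_nonneg_left hy1 hB0)
  have g2 : ∑ h ∈ (Icc (-(H : ℤ)) H).filter (fun h : ℤ => (h : ZMod q) = a), ‖f2 (-h).toNat‖ ^ 2 ≤ B * y := by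
    have hzero : f2 0 = 0 := by
      rw [hf2]
      refine sum_eq_zero fun b hb => sum_eq_zero fun m hm => ?_
      rw [mem_Icc] at hb hm
      rw [if_neg (by omega)]
    have h2 : ∑ h ∈ (Icc (-(H : ℤ)) H).filter (fun h : ℤ => (h : ZMod q) = a), ‖f2 (-h).toNat‖ ^ 2 =
        ∑ h ∈ ((Icc (-(H : ℤ)) H).filter (fun h : ℤ => (h : ZMod q) = a)).filter (fun h => h < 0),
          ‖f2 (-h).toNat‖ ^ 2 := by
      symm
      refine sum_filter_of_ne fun h _ hne => ?_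
      by_contra hcon
      apply hne
      rw [show (-h).toNat = 0 by omega, hzero, norm_zero]
      norm_num
    rw [h2]
    have h3 : ∑ h ∈ ((Icc (-(H : ℤ)) H).filter (fun h : ℤ => (h : ZMod q) = a)).filter (fun h => h < 0),
          ‖f2 (-h).toNat‖ ^ 2 =
        ∑ k ∈ (((Icc (-(H : ℤ)) H).filter (fun h : ℤ => (h : ZMod q) = a)).filter (fun h => h < 0)).image
          (fun h => (-h).toNat), ‖f2 k‖ ^ 2 := by
      rw [sum_image]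
      intro x hx y hy hxy
      rw [coe_filter, Set.mem_ofPred_eq] at hx hy
      simp only at hxy
      omega
    rw [h3]
    have h4 : ∑ k ∈ (((Icc (-(H : ℤ)) H).filter (fun h : ℤ => (h : ZMod q) = a)).filter (fun h => h < 0)).image
          (fun h => (-h).toNat), ‖f2 k‖ ^ 2 ≤
        ∑ k ∈ (Icc 1 (2 * N)).filter (fun n : ℕ => (n : ZMod q) = -a), ‖f2 k‖ ^ 2 := by
      refine sum_le_sum_of_subset_of_nonneg ?_ fun _ _ _ => by positivity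
      intro k hk
      rw [mem_image] at hk
      obtain ⟨h, hh, rfl⟩ := hk
      rw [mem_filter, mem_filter, mem_Icc] at hh
      rw [mem_filter, mem_Icc]
      refine ⟨⟨by omega, by omega⟩, ?_⟩
      have e1 : (((-h).toNat : ℕ) : ZMod q) = (((-h).toNat : ℤ) : ZMod q) := by push_cast; rfl
      rw [e1, Int.toNat_of_nonneg (by omega), Int.cast_neg, hh.1.2]
    refine h4.trans ?_
    rw [hf2]
    exact hS.trans (mul_le_mul_of_nonneg_left hy2 hB0)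
  linarith

end Pool.Agent.T9h57.LN
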