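import Pool.Agent.T9h57.LN.Fin1
import Pool.Agent.T9h57.LN.Core5

/-!
# The number of the exceptional shifts
-/

set_option autoImplicit false

namespace Pool.Agent.T9h57.LN

open Finset
open Pool.Agent.Y883.GJ
open Pool.Agent.T9h57.PK (rad)
open Pool.Agent.T9h57.LM (lc lc_norm lc_mul)

lemma TT_near {c y y' : ℕ} (hy : y' ≤ y) (Φ : ℕ → ℂ) (hΦ : ∀ n, ‖Φ n‖ ≤ 1) (h : ℤ) :
    ‖TT c y Φ h‖ ≤ ‖TT c y' Φ h‖ + ((y : ℝ) - y') := by
  unfold TT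
  have h1 : Icc 1 y = Icc 1 y' ∪ Ioc y' y := by
    ext n
    rw [mem_union, mem_Icc, mem_Icc, mem_Ioc]
    omega
  have h2 : Disjoint (Icc 1 y') (Ioc y' y) := by
    rw [disjoint_left]
    intro n h3 h4
    rw [mem_Icc] at h3
    rw [mem_Ioc] at h4
    omega
  rw [h1, sum_union h2]
  refine (norm_add_le _ _).trans (add_le_add le_rfl ?_)
  refine (norm_sum_le _ _).trans ?_
  calc ∑ n ∈ Ioc y' y, ‖Φ n * lc ((c : ℤ) * n + h).natAbs‖ ≤ ∑ n ∈ Ioc y' y, (1 : ℝ) := by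
        refine sum_le_sum fun n _ => ?_
        rw [norm_mul]
        exact mul_le_one₀ (hΦ n) (norm_nonneg _) (lc_norm _)
    _ = (y : ℝ) - y' := by
        rw [sum_const, Nat.card_Ioc, nsmul_eq_mul, mul_one, Nat.cast_sub hy]

open Classical in
/-- the number of the exceptional shifts in a residue class -/
theorem grid {q N : ℕ} [NeZero q] (hN : 1 ≤ N) (B : ℝ)
    (hB : ∀ β : ℝ, ∑ l : ZMod q, ‖cl q N lc β l‖ ^ 2 ≤ B) (a : ZMod q) {c Y : ℕ} (hc : 0 < c) {H : ℕ}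
    (hNH : c * Y + H ≤ N) (Φ : ℕ → ℂ) (hΦ : ∀ n, ‖Φ n‖ ≤ 1) {ε X : ℝ} (hε : 0 < ε) (hε1 : ε ≤ 1)
    (hX : 4 ≤ ε * X) (hYX : (Y : ℝ) ≤ X) :
    (((Icc (-(H : ℤ)) H).filter (fun h : ℤ => (h : ZMod q) = a ∧
      ∃ y : ℕ, y ≤ Y ∧ ε * X < ‖TT c y Φ h‖)).card : ℝ) ≤ 80 * B / (ε ^ 3 * X) := by
  have hB0 : 0 ≤ B := le_trans (sum_nonneg fun _ _ => by positivity) (hB 0)
  have hX0 : 0 < X := by
    by_contra h
    push Not at h
    nlinarith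
  obtain ⟨s, hs⟩ : ∃ s, s = ⌊ε * X / 4⌋₊ + 1 := ⟨_, rfl⟩
  have hs0 : 0 < s := by omega
  have hs1 : (s : ℝ) ≤ ε * X / 2 := by
    have h1 : ((⌊ε * X / 4⌋₊ : ℕ) : ℝ) ≤ ε * X / 4 := Nat.floor_le (by positivity)
    rw [hs]
    push_cast
    linarith
  have hs2 : ε * X / 4 < s := by
    rw [hs]
    push_cast
    exact Nat.lt_floor_add_one _
  have hs0r : (0 : ℝ) < s := by exact_mod_cast hs0
  obtain ⟨J, hJ⟩ : ∃ J, J = Y / s := ⟨_, rfl⟩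
  have hJ1 : (J : ℝ) + 1 ≤ 5 / ε := by
    have h1 : (J : ℝ) ≤ Y / s := by rw [hJ]; exact Nat.cast_div_le
    have h2 : (Y : ℝ) / s ≤ 4 / ε := by
      rw [div_le_div_iff₀ hs0r hε]
      calc (Y : ℝ) * ε ≤ X * ε := by gcongr
        _ = 4 * (ε * X / 4) := by ring
        _ ≤ 4 * s := by linarith
    have h3 : 1 ≤ 1 / ε := by rw [le_div_iff₀ hε]; linarith
    have h4 : 5 / ε = 4 / ε + 1 / ε := by ring
    linarith
  obtain ⟨S, hS⟩ : ∃ S : ℕ → Finset ℤ, S = fun j => ((Icc (-(H : ℤ)) H).filter (fun h : ℤ => (h : ZMod q) = a)).filter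
    (fun h => ε * X / 2 < ‖TT c (s * j) Φ h‖) := ⟨_, rfl⟩
  have hsub : (Icc (-(H : ℤ)) H).filter (fun h : ℤ => (h : ZMod q) = a ∧
      ∃ y : ℕ, y ≤ Y ∧ ε * X < ‖TT c y Φ h‖) ⊆ (range (J + 1)).biUnion S := by
    intro h hh
    rw [mem_filter] at hh
    obtain ⟨h1, h2, y, hy, h3⟩ := hh
    rw [mem_biUnion]
    refine ⟨y / s, ?_, ?_⟩
    · rw [mem_range, hJ]
      have := Nat.div_le_div_right (c := s) hy
      omega
    · rw [hS]
      simp only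
      rw [mem_filter, mem_filter]
      refine ⟨⟨h1, h2⟩, ?_⟩
      have h4 : s * (y / s) ≤ y := Nat.mul_div_le y s
      have h5 := TT_near (c := c) h4 Φ hΦ h
      have h6 : (y : ℝ) - ((s * (y / s) : ℕ) : ℝ) ≤ s := by
        have h7 : y < s * (y / s + 1) := Nat.lt_mul_div_succ y hs0
        have h8 : y ≤ s * (y / s) + s := by
          rw [mul_add, mul_one] at h7
          omega
        have h9 : (y : ℝ) ≤ ((s * (y / s) : ℕ) : ℝ) + s := by exact_mod_cast h8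
        linarith
      linarith
  have hcard : ∀ j ∈ range (J + 1), ((S j).card : ℝ) ≤ 16 * B / (ε ^ 2 * X) := by
    intro j hj
    rw [mem_range] at hj
    have hjY : s * j ≤ Y := by
      have h1 : s * j ≤ s * J := Nat.mul_le_mul_left s (by omega)
      have h2 : s * J ≤ Y := by rw [hJ]; exact Nat.mul_div_le Y s
      omega
    have h1 := mean_sq hN B hB a hc (y := s * j) (H := H) (by
      have := Nat.mul_le_mul_left c hjY
      omega) Φ hΦ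
    have h2 : ((S j).card : ℝ) * (ε * X / 2) ^ 2 ≤
        ∑ h ∈ (Icc (-(H : ℤ)) H).filter (fun h : ℤ => (h : ZMod q) = a), ‖TT c (s * j) Φ h‖ ^ 2 := by
      calc ((S j).card : ℝ) * (ε * X / 2) ^ 2 = ∑ h ∈ S j, (ε * X / 2) ^ 2 := by rw [sum_const, nsmul_eq_mul]
        _ ≤ ∑ h ∈ S j, ‖TT c (s * j) Φ h‖ ^ 2 := by
            refine sum_le_sum fun h hh => ?_
            rw [hS] at hh
            simp only at hh
            rw [mem_filter] at hh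
            exact pow_le_pow_left₀ (by positivity) hh.2.le 2
        _ ≤ _ := by
            refine sum_le_sum_of_subset_of_nonneg ?_ fun _ _ _ => by positivity
            rw [hS]
            exact filter_subset _ _
    have h3 : ((s * j : ℕ) : ℝ) ≤ X := le_trans (by exact_mod_cast hjY) hYX
    rw [le_div_iff₀ (by positivity)]
    have h4 : ((S j).card : ℝ) * (ε * X / 2) ^ 2 ≤ 4 * B * X :=
      h2.trans (h1.trans (mul_le_mul_of_nonneg_left h3 (by positivity)))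
    have h5 : ((S j).card : ℝ) * (ε ^ 2 * X) * X ≤ 16 * B * X := by
      calc ((S j).card : ℝ) * (ε ^ 2 * X) * X = 4 * (((S j).card : ℝ) * (ε * X / 2) ^ 2) := by ring
        _ ≤ 4 * (4 * B * X) := by linarith
        _ = 16 * B * X := by ring
    exact le_of_mul_le_mul_right h5 hX0
  have h1 : (((Icc (-(H : ℤ)) H).filter (fun h : ℤ => (h : ZMod q) = a ∧
      ∃ y : ℕ, y ≤ Y ∧ ε * X < ‖TT c y Φ h‖)).card : ℝ) ≤ ∑ j ∈ range (J + 1), ((S j).card : ℝ) := by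
    exact_mod_cast (card_le_card hsub).trans card_biUnion_le
  refine h1.trans ((sum_le_sum hcard).trans ?_)
  rw [sum_const, card_range, nsmul_eq_mul]
  push_cast
  calc ((J : ℝ) + 1) * (16 * B / (ε ^ 2 * X)) ≤ (5 / ε) * (16 * B / (ε ^ 2 * X)) := by gcongr
    _ = 80 * B / (ε ^ 3 * X) := by
        field_simp
        ring

open Classical in
/-- the exceptional shifts, positive coefficient -/
theorem final_pos {ε : ℝ} (hε : 0 < ε) {ρ : ℝ} (hρ : 0 < ρ) (C : ℕ) :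
    ∃ c₀ : ℕ, ∀ T : ℕ, ∃ X₀ : ℝ, ∀ X : ℝ, X₀ ≤ X → ∃ D : Finset ℕ, (D.card : ℝ) ≤ Real.log X ^ c₀ ∧
    (∀ e ∈ D, Real.log X ^ T < (rad e : ℝ)) ∧
    ∀ q : ℕ, 1 ≤ q → (q : ℝ) ≤ X ^ (1 - ρ) → (∀ e ∈ D, ¬ e ∣ q) → ∀ c : ℕ, 1 ≤ c → c ≤ C →
    ∀ a : ℤ, ∀ Φ : ℕ → ℂ, (∀ n, ‖Φ n‖ ≤ 1) →
      ({h : ℤ | |(h : ℝ)| ≤ X ∧ h ≡ a [ZMOD q] ∧ ∃ y : ℕ, (y : ℝ) ≤ X ∧ ε * X < ‖TT c y Φ h‖}).Finite ∧
      (({h : ℤ | |(h : ℝ)| ≤ X ∧ h ≡ a [ZMOD q] ∧ ∃ y : ℕ, (y : ℝ) ≤ X ∧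
        ε * X < ‖TT c y Φ h‖}).ncard : ℝ) ≤ ε * X / q := by
  obtain ⟨ε₁, hε₁⟩ : ∃ ε₁, ε₁ = min ε 1 := ⟨_, rfl⟩
  have hε₁0 : 0 < ε₁ := by rw [hε₁]; exact lt_min hε one_pos
  have hε₁1 : ε₁ ≤ 1 := by rw [hε₁]; exact min_le_right _ _
  have hε₁ε : ε₁ ≤ ε := by rw [hε₁]; exact min_le_left _ _
  obtain ⟨ρ₁, hρ₁⟩ : ∃ ρ₁, ρ₁ = min ρ 1 := ⟨_, rfl⟩
  have hρ₁0 : 0 < ρ₁ := by rw [hρ₁]; exact lt_min hρ one_pos
  have hρ₁1 : ρ₁ ≤ 1 := by rw [hρ₁]; exact min_le_right _ _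
  have hρ₁ρ : ρ₁ ≤ ρ := by rw [hρ₁]; exact min_le_left _ _
  obtain ⟨ε', hε'⟩ : ∃ ε' : ℝ, ε' = ε₁ ^ 4 / (80 * ((C : ℝ) + 2) ^ 2) := ⟨_, rfl⟩
  have hε'0 : 0 < ε' := by rw [hε']; positivity
  obtain ⟨c₀, hc₀⟩ := core_la hε'0 hρ₁0
  refine ⟨c₀ + 1, fun T => ?_⟩
  obtain ⟨N₀, hN₀⟩ := hc₀ T
  refine ⟨Real.exp (2 ^ c₀ + Real.log ((C : ℝ) + 2) + 1) + N₀ + 4 / ε₁ + 2, fun X hX => ?_⟩
  have hlC : 0 < Real.log ((C : ℝ) + 2) := Real.log_pos (by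
    have : (0 : ℝ) ≤ C := Nat.cast_nonneg _
    linarith)
  have hC0 : (0 : ℝ) ≤ C := Nat.cast_nonneg _
  have hN₀0 : (0 : ℝ) ≤ N₀ := Nat.cast_nonneg _
  have h4ε : 0 < 4 / ε₁ := by positivity
  have hexp0 := Real.exp_pos (2 ^ c₀ + Real.log ((C : ℝ) + 2) + 1)
  have hX2 : 2 ≤ X := by linarith
  have hX0 : 0 < X := by linarith
  have hX1 : 1 ≤ X := by linarith
  have hlX : 2 ^ c₀ + Real.log ((C : ℝ) + 2) + 1 ≤ Real.log X := by
    rw [Real.le_log_iff_exp_le hX0]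
    linarith
  have h2c : (1 : ℝ) ≤ 2 ^ c₀ := one_le_pow₀ (by norm_num)
  have hlX0 : 0 < Real.log X := by linarith
  obtain ⟨N, hN⟩ : ∃ N, N = ⌈((C : ℝ) + 1) * X⌉₊ := ⟨_, rfl⟩
  have hN1 : ((C : ℝ) + 1) * X ≤ N := by rw [hN]; exact Nat.le_ceil _
  have hN2 : (N : ℝ) ≤ ((C : ℝ) + 2) * X := by
    have h1 : (N : ℝ) < ((C : ℝ) + 1) * X + 1 := by rw [hN]; exact Nat.ceil_lt_add_one (by positivity)
    linarith
  have hXN : X ≤ N := by nlinarith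
  have hNpos : (0 : ℝ) < N := by linarith
  have hN1' : 1 ≤ N := by exact_mod_cast hNpos
  have hNN₀ : N₀ ≤ N := by
    have : (N₀ : ℝ) ≤ N := by linarith
    exact_mod_cast this
  have hlN1 : Real.log X ≤ Real.log N := Real.log_le_log hX0 hXN
  have hlN2 : Real.log N ≤ 2 * Real.log X := by
    have h1 := Real.log_le_log hNpos hN2
    rw [Real.log_mul (by positivity) hX0.ne'] at h1
    linarith
  obtain ⟨D, hD1, hD2, hD3⟩ := hN₀ N hNN₀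
  refine ⟨D, ?_, ?_, ?_⟩
  · refine hD1.trans ?_
    calc Real.log N ^ c₀ ≤ (2 * Real.log X) ^ c₀ := by
          apply pow_le_pow_left₀ (by linarith) hlN2
      _ = 2 ^ c₀ * Real.log X ^ c₀ := by rw [mul_pow]
      _ ≤ Real.log X * Real.log X ^ c₀ := by gcongr; linarith
      _ = Real.log X ^ (c₀ + 1) := by ring
  · intro e he
    exact lt_of_le_of_lt (pow_le_pow_left₀ hlX0.le hlN1 T) (hD2 e he)
  intro q hq1 hq hqD c hc1 hcC a Φ hΦ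
  haveI : NeZero q := ⟨by omega⟩
  have hq0 : (0 : ℝ) < q := by exact_mod_cast hq1
  have hqN : (q : ℝ) ≤ (N : ℝ) ^ (1 - ρ₁) := by
    calc (q : ℝ) ≤ X ^ (1 - ρ) := hq
      _ ≤ X ^ (1 - ρ₁) := Real.rpow_le_rpow_of_exponent_le hX1 (by linarith)
      _ ≤ (N : ℝ) ^ (1 - ρ₁) := Real.rpow_le_rpow hX0.le hXN (by linarith)
  have hB := hD3 q hqN hqD
  obtain ⟨Y, hY⟩ : ∃ Y, Y = ⌊X⌋₊ := ⟨_, rfl⟩
  have hYX : (Y : ℝ) ≤ X := by rw [hY]; exact Nat.floor_le hX0.le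
  have hNH : c * Y + Y ≤ N := by
    have h1 : ((c * Y + Y : ℕ) : ℝ) ≤ N := by
      push_cast
      have h2 : (c : ℝ) ≤ C := by exact_mod_cast hcC
      calc (c : ℝ) * Y + Y ≤ C * X + X := by gcongr
        _ = (C + 1) * X := by ring
        _ ≤ N := hN1
    exact_mod_cast h1
  have hεX : 4 ≤ ε₁ * X := by
    have h1 : 4 / ε₁ ≤ X := by linarith
    rw [div_le_iff₀ hε₁0] at h1
    linarith
  have hg := grid hN1' (ε' * (N : ℝ) ^ 2 / q) hB (a : ZMod q) (c := c) (Y := Y) (by omega) (H := Y) hNH Φ hΦ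
    hε₁0 hε₁1 hεX hYX
  have hsub : {h : ℤ | |(h : ℝ)| ≤ X ∧ h ≡ a [ZMOD q] ∧ ∃ y : ℕ, (y : ℝ) ≤ X ∧ ε * X < ‖TT c y Φ h‖} ⊆
      ↑((Icc (-(Y : ℤ)) Y).filter (fun h : ℤ => (h : ZMod q) = (a : ZMod q) ∧
        ∃ y : ℕ, y ≤ Y ∧ ε₁ * X < ‖TT c y Φ h‖)) := by
    rintro h ⟨h1, h2, y, h3, h4⟩
    rw [coe_filter, Set.mem_ofPred_eq, mem_Icc]
    have h5 := abs_le.1 h1
    refine ⟨⟨?_, ?_⟩, ?_, y, ?_, ?_⟩
    · have h6 : ((-h : ℤ) : ℝ) ≤ X := by push_cast; linarith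
      have h7 : (-h).toNat ≤ Y := by
        rw [hY]
        apply Nat.le_floor
        rcases le_total 0 (-h) with h8 | h8
        · have h9 : (((-h).toNat : ℕ) : ℝ) = ((-h : ℤ) : ℝ) := by
            have : (((-h).toNat : ℕ) : ℤ) = -h := Int.toNat_of_nonneg h8
            exact_mod_cast congrArg (fun z : ℤ => (z : ℝ)) this
          rw [h9]
          exact h6
        · rw [Int.toNat_of_nonpos h8, Nat.cast_zero]
          exact hX0.le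
      omega
    · have h7 : h.toNat ≤ Y := by
        rw [hY]
        apply Nat.le_floor
        rcases le_total 0 h with h8 | h8
        · have h9 : ((h.toNat : ℕ) : ℝ) = (h : ℝ) := by
            have : ((h.toNat : ℕ) : ℤ) = h := Int.toNat_of_nonneg h8
            exact_mod_cast congrArg (fun z : ℤ => (z : ℝ)) this
          rw [h9]
          exact h5.2
        · rw [Int.toNat_of_nonpos h8, Nat.cast_zero]
          exact hX0.le
      omega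
    · exact (ZMod.intCast_eq_intCast_iff _ _ _).2 h2
    · rw [hY]
      exact Nat.le_floor h3
    · have : ε₁ * X ≤ ε * X := by gcongr
      linarith
  refine ⟨Set.Finite.subset (Finset.finite_toSet _) hsub, ?_⟩
  have h1 : ({h : ℤ | |(h : ℝ)| ≤ X ∧ h ≡ a [ZMOD q] ∧ ∃ y : ℕ, (y : ℝ) ≤ X ∧ ε * X < ‖TT c y Φ h‖}).ncard ≤
      ((Icc (-(Y : ℤ)) Y).filter (fun h : ℤ => (h : ZMod q) = (a : ZMod q) ∧
        ∃ y : ℕ, y ≤ Y ∧ ε₁ * X < ‖TT c y Φ h‖)).card := by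
    rw [← Set.ncard_coe_finset]
    exact Set.ncard_le_ncard hsub (Finset.finite_toSet _)
  refine le_trans (by exact_mod_cast h1) (hg.trans ?_)
  calc 80 * (ε' * (N : ℝ) ^ 2 / q) / (ε₁ ^ 3 * X) ≤ 80 * (ε' * (((C : ℝ) + 2) * X) ^ 2 / q) / (ε₁ ^ 3 * X) := by
        gcongr
    _ = ε₁ * X / q := by
        rw [hε']
        field_simp
    _ ≤ ε * X / q := by gcongr

end Pool.Agent.T9h57.LN
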